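import Pool.Agent.K3h75.TO.StmA

/-!
# Brick COV: regularity of a ring from a cover by regular rings
-/

set_option autoImplicit false

namespace Pool.Agent.K3h22.COV

/-- localization of a subring at one element, inside a domain -/
def Cs {D : Type} [CommRing D] (B : Subring D) (f : D) (hf : f ∈ B) : Subring D where
  carrier := {d | ∃ N : ℕ, d * f ^ N ∈ B}
  mul_mem' := by
    rintro a b ⟨N, hN⟩ ⟨M, hM⟩
    exact ⟨N + M, by
      have := B.mul_mem hN hM
      rwa [show a * b * f ^ (N + M) = a * f ^ N * (b * f ^ M) by ring]⟩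
  one_mem' := ⟨0, by simp⟩
  add_mem' := by
    rintro a b ⟨N, hN⟩ ⟨M, hM⟩
    exact ⟨N + M, by
      have h1 := B.mul_mem hN (B.pow_mem hf M)
      have h2 := B.mul_mem hM (B.pow_mem hf N)
      have := B.add_mem h1 h2
      rwa [show (a + b) * f ^ (N + M) = a * f ^ N * f ^ M + b * f ^ M * f ^ N by ring]⟩
  zero_mem' := ⟨0, by simp⟩
  neg_mem' := by
    rintro a ⟨N, hN⟩
    exact ⟨N, by
      have := B.neg_mem hN
      rwa [show -a * f ^ N = -(a * f ^ N) by ring]⟩

theorem mem_Cs {D : Type} [CommRing D] (B : Subring D) (f : D) (hf : f ∈ B) (d : D) :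
    d ∈ Cs B f hf ↔ ∃ N : ℕ, d * f ^ N ∈ B := Iff.rfl

/-- a local ring of a subring is a local ring of the localization -/
theorem reg_iff {D : Type} [CommRing D] [IsDomain D] (B C : Subring D) (hBC : B ≤ C) (f g : D)
    (hf : f ∈ B) (hg : g ∈ C) (hfg : f * g = 1) (hC : ∀ c ∈ C, ∃ N : ℕ, c * f ^ N ∈ B)
    (x : Ideal C) [hx : x.IsPrime] (q : Ideal B) [hq : q.IsPrime]
    (hxq : x.comap (Subring.inclusion hBC) = q) :
    IsRegularLocalRing (Localization.AtPrime q) ↔
      IsRegularLocalRing (Localization.AtPrime x) := by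
  subst hxq
  let : Algebra B C := (Subring.inclusion hBC).toAlgebra
  have hloc : IsLocalization (Submonoid.powers (⟨f, hf⟩ : B)) C := by
    refine ⟨?_, ?_, ?_⟩
    · rintro ⟨y, n, rfl⟩
      have hu : IsUnit (algebraMap B C ⟨f, hf⟩) := by
        refine IsUnit.of_mul_eq_one ⟨g, hg⟩ ?_
        apply Subtype.ext
        exact hfg
      change IsUnit (algebraMap B C ((⟨f, hf⟩ : B) ^ n))
      rw [map_pow]
      exact hu.pow n
    · rintro ⟨c, hc⟩
      obtain ⟨N, hN⟩ := hC c hc
      refine ⟨(⟨c * f ^ N, hN⟩, ⟨(⟨f, hf⟩ : B) ^ N, N, rfl⟩), ?_⟩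
      apply Subtype.ext
      rfl
    · intro a b hab
      refine ⟨1, ?_⟩
      have : (a : D) = b := congrArg (fun z : C => (z : D)) hab
      rw [Subtype.ext this]
  have key : IsLocalization.AtPrime (Localization.AtPrime x)
      (x.comap (Subring.inclusion hBC)) :=
    IsLocalization.isLocalization_isLocalization_atPrime_isLocalization
      (Submonoid.powers (⟨f, hf⟩ : B)) (S := C) (Localization.AtPrime x) x
  have e := IsLocalization.algEquiv (x.comap (Subring.inclusion hBC)).primeCompl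
    (Localization.AtPrime (x.comap (Subring.inclusion hBC))) (Localization.AtPrime x)
  constructor
  · intro h
    exact IsRegularLocalRing.of_ringEquiv e.toRingEquiv
  · intro h
    exact IsRegularLocalRing.of_ringEquiv e.toRingEquiv.symm

/-- **COV** -/
theorem t_COV : Pool.Agent.K3h75.TO.S_COV := by
  intro D _ _ B hB hcov
  rw [isRegularRing_iff]
  intro q hq
  obtain ⟨B', f, g, hf, hfq, hg, hfg, hreg, h1, h2⟩ := hcov q
  have hBC : B ≤ Cs B f hf := fun b hb => ⟨0, by simpa using hb⟩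
  have hB'C : B' ≤ Cs B f hf := fun b hb => h2 b hb
  have hgC : g ∈ Cs B f hf := ⟨1, by rw [pow_one, mul_comm, hfg]; exact B.one_mem⟩
  have hfC : f ∈ Cs B f hf := hBC hf
  have hC' : ∀ c ∈ Cs B f hf, ∃ N : ℕ, c * g ^ N ∈ B' := by
    rintro c ⟨N, hN⟩
    obtain ⟨M, hM⟩ := h1 _ hN
    refine ⟨M, ?_⟩
    -- multiply by g ^ N: c * f ^ N * g ^ (M + N) = c * g ^ M
    have h3 := B'.mul_mem hM (B'.pow_mem hg N)
    have h4 : c * f ^ N * g ^ M * g ^ N = c * g ^ M * (f * g) ^ N := by
      rw [mul_pow]; ring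
    rwa [h4, hfg, one_pow, mul_one] at h3
  -- the prime of the localization
  let : Algebra B (Cs B f hf) := (Subring.inclusion hBC).toAlgebra
  have hloc : IsLocalization (Submonoid.powers (⟨f, hf⟩ : B)) (Cs B f hf) := by
    refine ⟨?_, ?_, ?_⟩
    · rintro ⟨y, n, rfl⟩
      have hu : IsUnit (algebraMap B (Cs B f hf) ⟨f, hf⟩) := by
        refine IsUnit.of_mul_eq_one ⟨g, hgC⟩ ?_
        apply Subtype.ext
        exact hfg
      change IsUnit (algebraMap B (Cs B f hf) ((⟨f, hf⟩ : B) ^ n))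
      rw [map_pow]
      exact hu.pow n
    · rintro ⟨c, hc⟩
      obtain ⟨N, hN⟩ := hc
      refine ⟨(⟨c * f ^ N, hN⟩, ⟨(⟨f, hf⟩ : B) ^ N, N, rfl⟩), ?_⟩
      apply Subtype.ext
      rfl
    · intro a b hab
      refine ⟨1, ?_⟩
      have : (a : D) = b := congrArg (fun z : Cs B f hf => (z : D)) hab
      rw [Subtype.ext this]
  have hdisj : Disjoint (Submonoid.powers (⟨f, hf⟩ : B) : Set B) (q : Set B) := by
    rw [Set.disjoint_left]
    rintro _ ⟨n, rfl⟩ h
    exact hfq (hq.mem_of_pow_mem n h)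
  set x : Ideal (Cs B f hf) := q.map (algebraMap B (Cs B f hf)) with hxdef
  have hx : x.IsPrime := IsLocalization.isPrime_of_isPrime_disjoint
    (Submonoid.powers (⟨f, hf⟩ : B)) (Cs B f hf) q hq hdisj
  have hxq : x.comap (Subring.inclusion hBC) = q := IsLocalization.under_map_of_isPrime_disjoint
    (Submonoid.powers (⟨f, hf⟩ : B)) (Cs B f hf) hq hdisj
  rw [reg_iff B (Cs B f hf) hBC f g hf hgC hfg (fun c hc => hc) x q hxq]
  have : (x.comap (Subring.inclusion hB'C)).IsPrime := Ideal.comap_isPrime _ _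
  rw [← reg_iff B' (Cs B f hf) hB'C g f hg hfC (by rw [mul_comm]; exact hfg) hC' x
    (x.comap (Subring.inclusion hB'C)) rfl]
  exact hreg.isRegularLocalRing_localization _

end Pool.Agent.K3h22.COV
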