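import Pool.Agent.K3h35.GS.Stm

/-!
# Brick K3: maximum principle on the cylinder
-/

set_option autoImplicit false
open MeasureTheory Filter Topology Set Metric

namespace Pool.Agent.K3h22.GS

open Pool.Agent.K3h35.GS

/-- second derivative test at a local minimum -/
theorem snd_nonneg {f f1 : ℝ → ℝ} {f2 x : ℝ} (h1 : ∀ t, HasDerivAt f (f1 t) t)
    (h2 : HasDerivAt f1 f2 x) (hmin : IsLocalMin f x) : 0 ≤ f2 := by
  by_contra hneg
  push Not at hneg
  have hd : deriv f = f1 := funext fun t => (h1 t).deriv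
  have hdd : deriv (deriv f) x = f2 := by rw [hd]; exact h2.deriv
  have hmax : IsLocalMax f x := by
    refine isLocalMax_of_deriv_deriv_neg (by rw [hdd]; exact hneg) ?_ (h1 x).continuousAt
    exact hmin.deriv_eq_zero
  have hc : f =ᶠ[𝓝 x] fun _ => f x := by
    filter_upwards [hmin, hmax] with y h3 h4
    exact le_antisymm h4 h3
  have h5 : deriv f =ᶠ[𝓝 x] fun _ => (0 : ℝ) := by
    have := hc.deriv
    simpa using this
  have h6 : deriv (deriv f) x = 0 := by
    rw [h5.deriv_eq]; simp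
  rw [hdd] at h6
  linarith

/-- the one-sided comparison -/
theorem refl_le (N : ℕ) (hN : 2 ≤ N) (V P P1 P2 : ℝ → ℝ) (c : ℝ) (hc : 0 < c)
    (hP : ∀ t, HasDerivAt P (P1 t) t) (hP1 : ∀ t, HasDerivAt P1 (P2 t) t)
    (hPc : ∀ t, c * Real.exp t ≤ P t) (hP2 : ∀ t, P2 t < (9 / 4 + V t) * P t)
    (u ut utt uh uhh : ℝ → ℝ → ℝ) (hu : Continuous (fun p : ℝ × ℝ => u p.1 p.2))
    (hut : ∀ t h, HasDerivAt (fun τ => u τ h) (ut t h) t)
    (hutt : ∀ t h, HasDerivAt (fun τ => ut τ h) (utt t h) t)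
    (huh : ∀ t h, HasDerivAt (fun ϑ => u t ϑ) (uh t h) h)
    (huhh : ∀ t h, HasDerivAt (fun ϑ => uh t ϑ) (uhh t h) h)
    (heq : ∀ t h, utt t h + uhh t h = V t * u t h)
    (hper : ∀ t h, u t (h + 2 * Real.pi / N) = u t h)
    (hdec : ∀ ε : ℝ, 0 < ε → ∃ T : ℝ, ∀ t h, T ≤ |t| → |u t h| ≤ ε * Real.exp t)
    (α t0 h0 : ℝ) (hh0 : h0 ∈ Icc (α - Real.pi / N) α) : u t0 h0 ≤ u t0 (2 * α - h0) := by
  by_contra hcon
  push Not at hcon
  have hpi := Real.pi_pos
  have hN2 : (2 : ℝ) ≤ N := by exact_mod_cast hN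
  have hNpos : (0 : ℝ) < N := by linarith
  set θ : ℝ := α - Real.pi / (2 * N) with hθ
  have hhalf : Real.pi / (2 * N) = Real.pi / N / 2 := by field_simp
  have hquart : Real.pi / (2 * N) ≤ Real.pi / 4 := by
    apply div_le_div_of_nonneg_left hpi.le (by norm_num) (by linarith)
  set κ : ℝ := Real.cos (3 / 2 * (Real.pi / 4)) with hκ
  have hκpos : 0 < κ := by
    apply Real.cos_pos_of_mem_Ioo
    constructor <;> linarith
  set ψ : ℝ → ℝ → ℝ := fun t h => u t h - u t (2 * α - h) with hψ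
  set C : ℝ → ℝ := fun h => Real.cos (3 / 2 * (h - θ)) with hC
  have hCκ : ∀ h ∈ Icc (α - Real.pi / N) α, κ ≤ C h := by
    intro h hh
    have habs : |h - θ| ≤ Real.pi / 4 := by
      rw [abs_le]
      constructor
      · have := hh.1
        rw [hθ, hhalf]
        have : Real.pi / N / 2 ≤ Real.pi / 4 := by rw [← hhalf]; exact hquart
        linarith [hh.1]
      · rw [hθ]
        linarith [hh.2]
    have : C h = Real.cos |3 / 2 * (h - θ)| := by rw [hC]; exact (Real.cos_abs _).symm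
    rw [this, hκ]
    apply Real.cos_le_cos_of_nonneg_of_le_pi (abs_nonneg _)
    · linarith
    · rw [abs_mul, abs_of_pos (by norm_num : (0 : ℝ) < 3 / 2)]
      linarith
  set B : ℝ → ℝ → ℝ := fun t h => P t * C h with hB
  have hPpos : ∀ t, 0 < P t := fun t => lt_of_lt_of_le (mul_pos hc (Real.exp_pos t)) (hPc t)
  have hBlow : ∀ t, ∀ h ∈ Icc (α - Real.pi / N) α, c * κ * Real.exp t ≤ B t h := by
    intro t h hh
    calc c * κ * Real.exp t = (c * Real.exp t) * κ := by ring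
      _ ≤ P t * C h := mul_le_mul (hPc t) (hCκ h hh) hκpos.le (hPpos t).le
  have hBpos : ∀ t, ∀ h ∈ Icc (α - Real.pi / N) α, 0 < B t h := by
    intro t h hh
    exact lt_of_lt_of_le (by positivity) (hBlow t h hh)
  have hψc : Continuous (fun p : ℝ × ℝ => ψ p.1 p.2) := by
    have h1 : Continuous (fun p : ℝ × ℝ => u p.1 (2 * α - p.2)) :=
      hu.comp (continuous_fst.prodMk (continuous_const.sub continuous_snd))
    exact hu.sub h1
  have hPcont : Continuous P := continuous_iff_continuousAt.2 fun t => (hP t).continuousAt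
  have hCcont : Continuous C := by
    rw [hC]; fun_prop
  have hBc : Continuous (fun p : ℝ × ℝ => B p.1 p.2) :=
    (hPcont.comp continuous_fst).mul (hCcont.comp continuous_snd)
  -- the value at the base point
  set m0 : ℝ := ψ t0 h0 / B t0 h0 with hm0
  have hψ0 : 0 < ψ t0 h0 := by rw [hψ]; simp only; linarith
  have hm0pos : 0 < m0 := div_pos hψ0 (hBpos _ _ hh0)
  obtain ⟨T, hT⟩ := hdec (m0 * (c * κ) / 4) (by positivity)
  have hfar : ∀ t, ∀ h ∈ Icc (α - Real.pi / N) α, T ≤ |t| → ψ t h < m0 * B t h := by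
    intro t h hh ht
    have e1 := hT t h ht
    have e2 := hT t (2 * α - h) ht
    have e3 : ψ t h ≤ 2 * (m0 * (c * κ) / 4 * Real.exp t) := by
      have := abs_le.1 e1
      have := abs_le.1 e2
      rw [hψ]; simp only
      linarith
    have e4 : m0 * (c * κ * Real.exp t) ≤ m0 * B t h :=
      mul_le_mul_of_nonneg_left (hBlow t h hh) hm0pos.le
    have e5 : 0 < m0 * (c * κ * Real.exp t) := by positivity
    nlinarith
  have hT0 : |t0| < T := by
    by_contra h
    push Not at h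
    have := hfar t0 h0 hh0 h
    rw [hm0, div_mul_cancel₀ _ (hBpos _ _ hh0).ne'] at this
    exact lt_irrefl _ this
  set K : Set (ℝ × ℝ) := Icc (-T) T ×ˢ Icc (α - Real.pi / N) α with hK
  have hKc : IsCompact K := isCompact_Icc.prod isCompact_Icc
  have hne : K.Nonempty := ⟨(t0, h0), ⟨⟨by linarith [(abs_lt.1 hT0).1], by
    linarith [(abs_lt.1 hT0).2]⟩, hh0⟩⟩
  have hcont : ContinuousOn (fun p : ℝ × ℝ => ψ p.1 p.2 / B p.1 p.2) K := by
    apply ContinuousOn.div hψc.continuousOn hBc.continuousOn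
    intro p hp
    exact (hBpos _ _ hp.2).ne'
  obtain ⟨p, hpK, hpmax⟩ := hKc.exists_isMaxOn hne hcont
  set M : ℝ := ψ p.1 p.2 / B p.1 p.2 with hM
  have hMm0 : m0 ≤ M := hpmax (show (t0, h0) ∈ K from ⟨⟨by linarith [(abs_lt.1 hT0).1], by
    linarith [(abs_lt.1 hT0).2]⟩, hh0⟩)
  have hMpos : 0 < M := lt_of_lt_of_le hm0pos hMm0
  have hall : ∀ t, ∀ h ∈ Icc (α - Real.pi / N) α, ψ t h ≤ M * B t h := by
    intro t h hh
    by_cases ht : T ≤ |t|
    · have := hfar t h hh ht
      have h2 : m0 * B t h ≤ M * B t h := mul_le_mul_of_nonneg_right hMm0 (hBpos t h hh).le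
      linarith
    · push Not at ht
      have hmem : (t, h) ∈ K := ⟨⟨by linarith [(abs_lt.1 ht).1], by linarith [(abs_lt.1 ht).2]⟩, hh⟩
      have := hpmax hmem
      exact (div_le_iff₀ (hBpos t h hh)).1 this
  have hpeq : ψ p.1 p.2 = M * B p.1 p.2 := by
    rw [hM, div_mul_cancel₀ _ (hBpos _ _ hpK.2).ne']
  have hψp : 0 < ψ p.1 p.2 := by
    rw [hpeq]; exact mul_pos hMpos (hBpos _ _ hpK.2)
  -- interior
  have hint : p.2 ∈ Ioo (α - Real.pi / N) α := by
    refine ⟨lt_of_le_of_ne hpK.2.1 ?_, lt_of_le_of_ne hpK.2.2 ?_⟩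
    · intro h
      have : ψ p.1 p.2 = 0 := by
        rw [hψ]; simp only
        rw [← h]
        have e := hper p.1 (α - Real.pi / N)
        have e2 : α - Real.pi / N + 2 * Real.pi / N = 2 * α - (α - Real.pi / N) := by ring
        rw [e2] at e
        rw [e, sub_self]
      linarith
    · intro h
      have : ψ p.1 p.2 = 0 := by
        rw [hψ]; simp only
        rw [h]
        have e2 : 2 * α - α = α := by ring
        rw [e2, sub_self]
      linarith
  -- derivatives in t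
  have ht1 : ∀ t, HasDerivAt (fun τ => M * B τ p.2 - ψ τ p.2)
      (M * (P1 t * C p.2) - (ut t p.2 - ut t (2 * α - p.2))) t := fun t =>
    (((hP t).mul_const (C p.2)).const_mul M).sub ((hut t p.2).sub (hut t (2 * α - p.2)))
  have ht2 : HasDerivAt (fun t => M * (P1 t * C p.2) - (ut t p.2 - ut t (2 * α - p.2)))
      (M * (P2 p.1 * C p.2) - (utt p.1 p.2 - utt p.1 (2 * α - p.2))) p.1 :=
    (((hP1 p.1).mul_const (C p.2)).const_mul M).sub
      ((hutt p.1 p.2).sub (hutt p.1 (2 * α - p.2)))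
  have hmin1 : IsLocalMin (fun τ => M * B τ p.2 - ψ τ p.2) p.1 := by
    refine Filter.Eventually.of_forall fun τ => ?_
    simp only
    rw [hpeq]
    have := hall τ p.2 hpK.2
    linarith
  have hsec1 := snd_nonneg ht1 ht2 hmin1
  -- derivatives in h
  have hC1 : ∀ h, HasDerivAt C (-(3 / 2 * Real.sin (3 / 2 * (h - θ)))) h := by
    intro h
    have h1 : HasDerivAt (fun x : ℝ => 3 / 2 * (x - θ)) (3 / 2 * 1) h :=
      ((hasDerivAt_id h).sub_const θ).const_mul (3 / 2)
    have h2 := h1.cos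
    exact h2.congr_deriv (by ring)
  have hC2 : ∀ h, HasDerivAt (fun x => -(3 / 2 * Real.sin (3 / 2 * (x - θ)))) (-(9 / 4 * C h)) h := by
    intro h
    have h1 : HasDerivAt (fun x : ℝ => 3 / 2 * (x - θ)) (3 / 2 * 1) h :=
      ((hasDerivAt_id h).sub_const θ).const_mul (3 / 2)
    have h2 := (h1.sin.const_mul (3 / 2)).neg
    exact h2.congr_deriv (by rw [hC]; simp only; ring)
  have hrefl1 : ∀ h, HasDerivAt (fun ϑ => u p.1 (2 * α - ϑ)) (-(uh p.1 (2 * α - h))) h := by
    intro h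
    have h1 : HasDerivAt (fun x : ℝ => 2 * α - x) (-1) h := by
      simpa using (hasDerivAt_id h).const_sub (2 * α)
    have h2 := (huh p.1 (2 * α - h)).comp h h1
    exact h2.congr_deriv (by ring)
  have hrefl2 : ∀ h, HasDerivAt (fun ϑ => -(uh p.1 (2 * α - ϑ))) (uhh p.1 (2 * α - h)) h := by
    intro h
    have h1 : HasDerivAt (fun x : ℝ => 2 * α - x) (-1) h := by
      simpa using (hasDerivAt_id h).const_sub (2 * α)
    have h2 := ((huhh p.1 (2 * α - h)).comp h h1).neg
    exact h2.congr_deriv (by ring)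
  have hh1 : ∀ h, HasDerivAt (fun ϑ => M * B p.1 ϑ - ψ p.1 ϑ)
      (M * (P p.1 * (-(3 / 2 * Real.sin (3 / 2 * (h - θ))))) -
        (uh p.1 h - -(uh p.1 (2 * α - h)))) h := fun h =>
    (((hC1 h).const_mul (P p.1)).const_mul M).sub ((huh p.1 h).sub (hrefl1 h))
  have hh2 : HasDerivAt (fun h => M * (P p.1 * (-(3 / 2 * Real.sin (3 / 2 * (h - θ))))) -
        (uh p.1 h - -(uh p.1 (2 * α - h))))
      (M * (P p.1 * (-(9 / 4 * C p.2))) - (uhh p.1 p.2 - uhh p.1 (2 * α - p.2))) p.2 :=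
    (((hC2 p.2).const_mul (P p.1)).const_mul M).sub ((huhh p.1 p.2).sub (hrefl2 p.2))
  have hmin2 : IsLocalMin (fun ϑ => M * B p.1 ϑ - ψ p.1 ϑ) p.2 := by
    filter_upwards [Ioo_mem_nhds hint.1 hint.2] with ϑ hϑ
    rw [hpeq]
    have := hall p.1 ϑ ⟨hϑ.1.le, hϑ.2.le⟩
    linarith
  have hsec2 := snd_nonneg hh1 hh2 hmin2
  have hq1 := heq p.1 p.2
  have hq2 := heq p.1 (2 * α - p.2)
  have hCp : 0 < C p.2 := lt_of_lt_of_le hκpos (hCκ _ hpK.2)
  have hq3 : V p.1 * ψ p.1 p.2 = V p.1 * (M * (P p.1 * C p.2)) := by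
    rw [hpeq]
  have hq4 : V p.1 * ψ p.1 p.2 = V p.1 * u p.1 p.2 - V p.1 * u p.1 (2 * α - p.2) := by
    rw [hψ]; simp only; ring
  have hfin : (M * C p.2) * (P2 p.1) < (M * C p.2) * ((9 / 4 + V p.1) * P p.1) :=
    mul_lt_mul_of_pos_left (hP2 p.1) (mul_pos hMpos hCp)
  nlinarith

/-- Brick K3. -/
theorem t_K3 : St_K3 := by
  intro N hN V P P1 P2 c hc hP hP1 hPc hP2 u ut utt uh uhh hu hut hutt huh huhh heq hper hdec
  have hpi := Real.pi_pos
  have hN2 : (2 : ℝ) ≤ N := by exact_mod_cast hN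
  have hNpos : (0 : ℝ) < N := by linarith
  have hrefl : ∀ α t h, h ∈ Icc (α - Real.pi / N) α → u t h = u t (2 * α - h) := by
    intro α t h hh
    apply le_antisymm
    · exact refl_le N hN V P P1 P2 c hc hP hP1 hPc hP2 u ut utt uh uhh hu hut hutt huh huhh heq
        hper hdec α t h hh
    · have := refl_le N hN V P P1 P2 c hc hP hP1 hPc hP2 (fun t h => - u t h)
        (fun t h => - ut t h) (fun t h => - utt t h) (fun t h => - uh t h) (fun t h => - uhh t h)
        hu.neg (fun t h => (hut t h).neg) (fun t h => (hutt t h).neg)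
        (fun t h => (huh t h).neg) (fun t h => (huhh t h).neg)
        (fun t h => by have := heq t h; linarith)
        (fun t h => by rw [hper t h])
        (fun ε hε => by
          obtain ⟨T, hT⟩ := hdec ε hε
          exact ⟨T, fun t h ht => by rw [abs_neg]; exact hT t h ht⟩) α t h hh
      linarith
  intro t h h'
  have hcpos : 0 < 2 * Real.pi / N := by positivity
  have hperiodic : Function.Periodic (u t) (2 * Real.pi / N) := hper t
  obtain ⟨y, hy, hyeq⟩ := hperiodic.exists_mem_Ico hcpos h' h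
  rw [hyeq]
  have := hrefl ((h + y) / 2) t h ⟨by
    have := hy.2
    have e : 2 * Real.pi / N = 2 * (Real.pi / N) := by ring
    rw [e] at this
    linarith, by linarith [hy.1]⟩
  rw [this]
  congr 1
  ring

end Pool.Agent.K3h22.GS
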