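import Pool.Agent.K3h35.GS.Stm

/-!
# Bricks T1, T2, T3: the logarithmic potential in the plane
-/

set_option autoImplicit false
open MeasureTheory Filter Topology Set Metric

namespace Pool.Agent.K3h22.GS

open Pool.Agent.K3h35.GS Pool.Agent.H314.Dir

variable {G : Type*} [NormedAddCommGroup G] [NormedSpace ℝ G]

/-- integrability of negative powers -/
theorem intOn_inv_sq : IntegrableOn (fun s : ℝ => (s ^ 2)⁻¹) (Ioi 1) := by
  have h := integrableOn_Ioi_rpow_of_lt (a := (-2 : ℝ)) (c := 1) (by norm_num) one_pos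
  refine h.congr_fun (fun s hs => ?_) measurableSet_Ioi
  have hs0 : (0 : ℝ) < s := lt_trans one_pos hs
  simp only
  rw [Real.rpow_neg hs0.le, Real.rpow_two]

theorem integral_inv_sq : ∫ s in Ioi (1 : ℝ), (s ^ 2)⁻¹ = 1 := by
  have h := integral_Ioi_rpow_of_lt (a := (-2 : ℝ)) (c := 1) (by norm_num) one_pos
  have e : ∫ s in Ioi (1 : ℝ), (s ^ 2)⁻¹ = ∫ t in Ioi (1 : ℝ), t ^ (-2 : ℝ) := by
    refine setIntegral_congr_fun measurableSet_Ioi fun s hs => ?_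
    have hs0 : (0 : ℝ) < s := lt_trans one_pos hs
    rw [Real.rpow_neg hs0.le, Real.rpow_two]
  rw [e, h]
  norm_num

/-- averages over large balls of an integrable function -/
theorem norm_J_le_sq {κ : Eu 2 → G} {B : ℝ} (hB : ∀ y, ‖κ y‖ ≤ B) {f : Eu 2 → ℝ}
    (hf : Integrable f) {s : ℝ} (hs : 0 < s) (x : Eu 2) :
    ‖J κ f s x‖ ≤ (s ^ 2)⁻¹ * (B * ∫ y, |f y|) := by
  rw [J_eq_conv κ f hs x, norm_smul, norm_inv, Real.norm_eq_abs, abs_of_pos (by positivity)]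
  refine mul_le_mul_of_nonneg_left ?_ (by positivity)
  rw [← integral_const_mul]
  refine norm_integral_le_of_norm_le (hf.abs.const_mul B) (Eventually.of_forall fun y => ?_)
  rw [norm_smul, Real.norm_eq_abs, mul_comm]
  exact mul_le_mul_of_nonneg_right (hB _) (abs_nonneg _)

theorem norm_J_sub_le_cube [CompleteSpace G] {κ : Eu 2 → G} (hκ : ContDiff ℝ 1 κ)
    (hc : HasCompactSupport κ) {B : ℝ} (hB : ∀ y, ‖fderiv ℝ κ y‖ ≤ B) {f : Eu 2 → ℝ} {C : ℝ}
    (hh : BM f C) (hf : Integrable f) {s : ℝ} (hs : 0 < s) (x y : Eu 2) :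
    ‖J κ f s x - J κ f s y‖ ≤ s⁻¹ * ((s ^ 2)⁻¹ * (B * ∫ y, |f y|)) * ‖x - y‖ := by
  refine Convex.norm_image_sub_le_of_norm_hasFDerivWithin_le (𝕜 := ℝ) (s := univ)
    (f := J κ f s) (f' := fun x => -(s⁻¹ • J (fderiv ℝ κ) f s x))
    (fun z _ => (hasFDerivAt_J hκ hc hh hs z).hasFDerivWithinAt) (fun z _ => ?_) convex_univ
    (mem_univ _) (mem_univ _)
  rw [norm_neg, norm_smul, norm_inv, Real.norm_eq_abs, abs_of_pos hs]
  exact mul_le_mul_of_nonneg_left (norm_J_le_sq hB hf hs z) (by positivity)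

/-- differentiation of the far part -/
theorem far_deriv [CompleteSpace G] {κ : Eu 2 → G} (hκ : ContDiff ℝ 1 κ)
    (hc : HasCompactSupport κ) {f : Eu 2 → ℝ} {C : ℝ} (hh : BM f C) (hf : Integrable f)
    {m : ℝ → ℝ} (hm : Continuous m) (hm1 : ∀ s, 1 < s → |m s| ≤ s) {c0 : ℝ → G}
    (hc0 : StronglyMeasurable c0) (x0 : Eu 2)
    (hint : IntegrableOn (fun s => m s • J κ f s x0 - c0 s) (Ioi 1)) :
    HasFDerivAt (fun x => ∫ s in Ioi (1 : ℝ), (m s • J κ f s x - c0 s))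
      (-∫ s in Ioi (1 : ℝ), (m s * s⁻¹) • J (fderiv ℝ κ) f s x0) x0 := by
  have hκ' : Continuous (fderiv ℝ κ) := hκ.continuous_fderiv one_ne_zero
  have hc' : HasCompactSupport (fderiv ℝ κ) := hc.fderiv (𝕜 := ℝ)
  obtain ⟨B, hB⟩ := hc'.exists_bound_of_continuous hκ'
  rw [← integral_neg]
  refine hasFDerivAt_integral_of_dominated_of_fderiv_le (s := univ)
    (bound := fun s => (s ^ 2)⁻¹ * (B * ∫ y, |f y|))
    (F := fun x s => m s • J κ f s x - c0 s)
    (F' := fun x s => -((m s * s⁻¹) • J (fderiv ℝ κ) f s x)) univ_mem ?_ hint ?_ ?_ ?_ ?_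
  · exact Eventually.of_forall fun y =>
      ((hm.stronglyMeasurable.smul (stronglyMeasurable_J hκ.continuous hh.meas y)).sub
        hc0).aestronglyMeasurable
  · have h1 : StronglyMeasurable (fun s : ℝ => m s * s⁻¹) :=
      hm.stronglyMeasurable.mul measurable_inv.stronglyMeasurable
    exact (h1.smul (stronglyMeasurable_J hκ' hh.meas x0)).neg.aestronglyMeasurable
  · refine (ae_restrict_iff' measurableSet_Ioi).2 (Eventually.of_forall fun s hs y _ => ?_)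
    have hs1 : (1 : ℝ) < s := hs
    have hs0 : (0 : ℝ) < s := lt_trans one_pos hs1
    rw [norm_neg, norm_smul, Real.norm_eq_abs, abs_mul, abs_inv, abs_of_pos hs0]
    have h2 := norm_J_le_sq hB hf hs0 y
    have h3 : |m s| * s⁻¹ ≤ 1 := by
      rw [← div_eq_mul_inv, div_le_one hs0]
      exact hm1 s hs1
    calc |m s| * s⁻¹ * ‖J (fderiv ℝ κ) f s y‖ ≤ 1 * ((s ^ 2)⁻¹ * (B * ∫ y, |f y|)) :=
          mul_le_mul h3 h2 (norm_nonneg _) zero_le_one
      _ = (s ^ 2)⁻¹ * (B * ∫ y, |f y|) := one_mul _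
  · exact intOn_inv_sq.mul_const _
  · refine (ae_restrict_iff' measurableSet_Ioi).2 (Eventually.of_forall fun s hs y _ => ?_)
    have hs0 : (0 : ℝ) < s := lt_trans one_pos hs
    have h1 := ((hasFDerivAt_J hκ hc hh hs0 y).const_smul (m s)).sub_const (c0 s)
    refine h1.congr_fderiv ?_
    rw [smul_neg, smul_smul]

/-- continuity of the far part -/
theorem far_cont [CompleteSpace G] {κ : Eu 2 → G} (hκ : ContDiff ℝ 1 κ)
    (hc : HasCompactSupport κ) {f : Eu 2 → ℝ} {C : ℝ} (hh : BM f C) (hf : Integrable f) :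
    Continuous (fun x => ∫ s in Ioi (1 : ℝ), s⁻¹ • J κ f s x) := by
  obtain ⟨B, hB⟩ := hc.exists_bound_of_continuous hκ.continuous
  refine continuous_of_dominated (bound := fun s => (s ^ 2)⁻¹ * (B * ∫ y, |f y|)) ?_ ?_ ?_ ?_
  · exact fun y => (measurable_inv.stronglyMeasurable.smul
      (stronglyMeasurable_J hκ.continuous hh.meas y)).aestronglyMeasurable
  · refine fun y => (ae_restrict_iff' measurableSet_Ioi).2 (Eventually.of_forall fun s hs => ?_)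
    have hs1 : (1 : ℝ) < s := hs
    have hs0 : (0 : ℝ) < s := lt_trans one_pos hs1
    rw [norm_smul, norm_inv, Real.norm_eq_abs, abs_of_pos hs0]
    have h3 : s⁻¹ ≤ 1 := inv_le_one_of_one_le₀ hs1.le
    calc s⁻¹ * ‖J κ f s y‖ ≤ 1 * ((s ^ 2)⁻¹ * (B * ∫ y, |f y|)) :=
          mul_le_mul h3 (norm_J_le_sq hB hf hs0 y) (norm_nonneg _) zero_le_one
      _ = (s ^ 2)⁻¹ * (B * ∫ y, |f y|) := one_mul _
  · exact intOn_inv_sq.mul_const _
  · refine (ae_restrict_iff' measurableSet_Ioi).2 (Eventually.of_forall fun s hs => ?_)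
    have hs0 : (0 : ℝ) < s := lt_trans one_pos hs
    exact (continuous_iff_continuousAt.2 fun y =>
      (hasFDerivAt_J hκ hc hh hs0 y).continuousAt).const_smul _

/-- the integrand of the far part -/
theorem far_integrable {f : Eu 2 → ℝ} {C : ℝ} (hh : BM f C) (hf : Integrable f) (x : Eu 2) :
    IntegrableOn (fun s => s * (J sig f s x - J sig f s 0)) (Ioi (1 : ℝ)) := by
  have h1 : ContDiff ℝ 1 (sig : Eu 2 → ℝ) := contDiff_sig.of_le (by norm_num)
  have hκ' : Continuous (fderiv ℝ (sig : Eu 2 → ℝ)) := h1.continuous_fderiv one_ne_zero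
  have hc' : HasCompactSupport (fderiv ℝ (sig : Eu 2 → ℝ)) := hasCompactSupport_sig.fderiv (𝕜 := ℝ)
  obtain ⟨B, hB⟩ := hc'.exists_bound_of_continuous hκ'
  have hb : IntegrableOn (fun s : ℝ => (s ^ 2)⁻¹ * ((B * ∫ y, |f y|) * ‖x‖)) (Ioi 1) :=
    intOn_inv_sq.mul_const _
  refine Integrable.mono' hb ?_ ?_
  · exact (stronglyMeasurable_id.mul ((stronglyMeasurable_J h1.continuous hh.meas x).sub
      (stronglyMeasurable_J h1.continuous hh.meas 0))).aestronglyMeasurable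
  · refine (ae_restrict_iff' measurableSet_Ioi).2 (Eventually.of_forall fun s hs => ?_)
    have hs0 : (0 : ℝ) < s := lt_trans one_pos hs
    have h2 := norm_J_sub_le_cube h1 hasCompactSupport_sig hB hh hf hs0 x 0
    rw [sub_zero] at h2
    rw [norm_mul, Real.norm_eq_abs s, abs_of_pos hs0]
    calc s * ‖J sig f s x - J sig f s 0‖
        ≤ s * (s⁻¹ * ((s ^ 2)⁻¹ * (B * ∫ y, |f y|)) * ‖x‖) := mul_le_mul_of_nonneg_left h2 hs0.le
      _ = (s ^ 2)⁻¹ * ((B * ∫ y, |f y|) * ‖x‖) := by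
          field_simp

/-- the Laplacian of the far part -/
theorem far_lap {f : Eu 2 → ℝ} {C : ℝ} (hh : BM f C) (hf : Integrable f) (x : Eu 2) :
    ∫ s in Ioi (1 : ℝ), s⁻¹ * J (lap (sig : Eu 2 → ℝ)) f s x = - J rho f 1 x := by
  have hcont : Continuous (rho : Eu 2 → ℝ) := contDiff_rho.continuous
  obtain ⟨B, hB⟩ := (hasCompactSupport_rho (d := 2)).exists_bound_of_continuous hcont
  obtain ⟨B2, hB2⟩ := (hasCompactSupport_lap_sig (d := 2)).exists_bound_of_continuous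
    continuous_lap_sig
  have htend : Tendsto (fun s => J rho f s x) atTop (𝓝 0) := by
    have h1 : Tendsto (fun s : ℝ => (s ^ 2)⁻¹ * (B * ∫ y, |f y|)) atTop (𝓝 0) := by
      have h2 : Tendsto (fun s : ℝ => (s ^ 2)⁻¹) atTop (𝓝 0) :=
        (tendsto_pow_atTop (by norm_num : (2 : ℕ) ≠ 0)).inv_tendsto_atTop
      simpa using h2.mul_const (B * ∫ y, |f y|)
    refine squeeze_zero_norm' ?_ h1
    filter_upwards [eventually_gt_atTop (0 : ℝ)] with s hs
    exact norm_J_le_sq hB hf hs x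
  have hint : IntegrableOn (fun s => s⁻¹ * J (lap (sig : Eu 2 → ℝ)) f s x) (Ioi (1 : ℝ)) := by
    refine Integrable.mono' (intOn_inv_sq.mul_const (B2 * ∫ y, |f y|)) ?_ ?_
    · exact (measurable_inv.stronglyMeasurable.mul
        (stronglyMeasurable_J continuous_lap_sig hh.meas x)).aestronglyMeasurable
    · refine (ae_restrict_iff' measurableSet_Ioi).2 (Eventually.of_forall fun s hs => ?_)
      have hs1 : (1 : ℝ) < s := hs
      have hs0 : (0 : ℝ) < s := lt_trans one_pos hs1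
      rw [norm_mul, norm_inv, Real.norm_eq_abs, abs_of_pos hs0]
      have h3 : s⁻¹ ≤ 1 := inv_le_one_of_one_le₀ hs1.le
      calc s⁻¹ * ‖J (lap (sig : Eu 2 → ℝ)) f s x‖ ≤ 1 * ((s ^ 2)⁻¹ * (B2 * ∫ y, |f y|)) :=
            mul_le_mul h3 (norm_J_le_sq hB2 hf hs0 x) (norm_nonneg _) zero_le_one
        _ = (s ^ 2)⁻¹ * (B2 * ∫ y, |f y|) := one_mul _
  have key := integral_Ioi_of_hasDerivAt_of_tendsto (a := (1 : ℝ))
    (hasDerivAt_J_rho hh one_pos x).continuousAt.continuousWithinAt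
    (fun s hs => hasDerivAt_J_rho hh (lt_trans one_pos hs) x) hint htend
  rw [key, zero_sub]

/-- integrability of the second derivative of the far part -/
theorem far_int2 {κ : Eu 2 → G} (hκ : Continuous κ) (hc : HasCompactSupport κ) {f : Eu 2 → ℝ}
    {C : ℝ} (hh : BM f C) (hf : Integrable f) (x : Eu 2) :
    IntegrableOn (fun s : ℝ => s⁻¹ • J κ f s x) (Ioi (1 : ℝ)) := by
  obtain ⟨B, hB⟩ := hc.exists_bound_of_continuous hκ
  refine Integrable.mono' (intOn_inv_sq.mul_const (B * ∫ y, |f y|)) ?_ ?_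
  · exact (measurable_inv.stronglyMeasurable.smul
      (stronglyMeasurable_J hκ hh.meas x)).aestronglyMeasurable
  · refine (ae_restrict_iff' measurableSet_Ioi).2 (Eventually.of_forall fun s hs => ?_)
    have hs1 : (1 : ℝ) < s := hs
    have hs0 : (0 : ℝ) < s := lt_trans one_pos hs1
    rw [norm_smul, norm_inv, Real.norm_eq_abs, abs_of_pos hs0]
    have h3 : s⁻¹ ≤ 1 := inv_le_one_of_one_le₀ hs1.le
    calc s⁻¹ * ‖J κ f s x‖
        ≤ 1 * ((s ^ 2)⁻¹ * (B * ∫ y, |f y|)) :=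
          mul_le_mul h3 (norm_J_le_sq hB hf hs0 x) (norm_nonneg _) zero_le_one
      _ = (s ^ 2)⁻¹ * (B * ∫ y, |f y|) := one_mul _

/-- integrability of the first derivative of the far part -/
theorem far_int1 {κ : Eu 2 → G} (hκ : Continuous κ) (hc : HasCompactSupport κ) {f : Eu 2 → ℝ}
    {C : ℝ} (hh : BM f C) (hf : Integrable f) (x : Eu 2) :
    IntegrableOn (fun s : ℝ => J κ f s x) (Ioi (1 : ℝ)) := by
  obtain ⟨B, hB⟩ := hc.exists_bound_of_continuous hκ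
  refine Integrable.mono' (intOn_inv_sq.mul_const (B * ∫ y, |f y|)) ?_ ?_
  · exact (stronglyMeasurable_J hκ hh.meas x).aestronglyMeasurable
  · refine (ae_restrict_iff' measurableSet_Ioi).2 (Eventually.of_forall fun s hs => ?_)
    exact norm_J_le_sq hB hf (lt_trans one_pos hs) x

/-- the far part of the potential -/
noncomputable def Hf (f : Eu 2 → ℝ) (x : Eu 2) : ℝ :=
  ∫ s in Ioi (1 : ℝ), s * (J sig f s x - J sig f s 0)

/-- its first derivative -/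
noncomputable def Hf1 (f : Eu 2 → ℝ) (x : Eu 2) : Eu 2 →L[ℝ] ℝ :=
  -∫ s in Ioi (1 : ℝ), J (fderiv ℝ (sig : Eu 2 → ℝ)) f s x

/-- its second derivative -/
noncomputable def Hf2 (f : Eu 2 → ℝ) (x : Eu 2) : Eu 2 →L[ℝ] (Eu 2 →L[ℝ] ℝ) :=
  ∫ s in Ioi (1 : ℝ), s⁻¹ • J (fderiv ℝ (fderiv ℝ (sig : Eu 2 → ℝ))) f s x

theorem hasFDerivAt_Hf {f : Eu 2 → ℝ} {C : ℝ} (hh : BM f C) (hf : Integrable f) (x : Eu 2) :
    HasFDerivAt (Hf f) (Hf1 f x) x := by
  have hs1 : ContDiff ℝ 1 (sig : Eu 2 → ℝ) := contDiff_sig.of_le (by norm_num)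
  have h0 : IntegrableOn (fun s => s • J sig f s x - s • J (sig : Eu 2 → ℝ) f s 0)
      (Ioi (1 : ℝ)) := by
    refine (far_integrable hh hf x).congr_fun (fun s _ => ?_) measurableSet_Ioi
    simp only [smul_eq_mul]; ring
  have h1 := far_deriv hs1 hasCompactSupport_sig hh hf (m := fun s => s) continuous_id
    (fun s hs => by rw [abs_of_pos (lt_trans one_pos hs)])
    (c0 := fun s => s • J sig f s 0)
    (stronglyMeasurable_id.smul (stronglyMeasurable_J hs1.continuous hh.meas 0)) x h0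
  have e1 : (fun x => ∫ s in Ioi (1 : ℝ), (s • J sig f s x - s • J sig f s 0)) = Hf f := by
    funext z
    refine setIntegral_congr_fun measurableSet_Ioi fun s _ => ?_
    simp only [smul_eq_mul]; ring
  rw [e1] at h1
  refine h1.congr_fderiv ?_
  rw [Hf1]
  congr 1
  refine setIntegral_congr_fun measurableSet_Ioi fun s hs => ?_
  have hs0 : (0 : ℝ) < s := lt_trans one_pos hs
  change (s * s⁻¹) • J (fderiv ℝ (sig : Eu 2 → ℝ)) f s x = J (fderiv ℝ (sig : Eu 2 → ℝ)) f s x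
  rw [mul_inv_cancel₀ hs0.ne', one_smul]

theorem hasFDerivAt_Hf1 {f : Eu 2 → ℝ} {C : ℝ} (hh : BM f C) (hf : Integrable f) (x : Eu 2) :
    HasFDerivAt (Hf1 f) (Hf2 f x) x := by
  have hs2 : ContDiff ℝ 2 (fderiv ℝ (sig : Eu 2 → ℝ)) := contDiff_sig.fderiv_right (by norm_num)
  have hs3 : ContDiff ℝ 1 (fderiv ℝ (sig : Eu 2 → ℝ)) := hs2.of_le (by norm_num)
  have hc1 : HasCompactSupport (fderiv ℝ (sig : Eu 2 → ℝ)) := hasCompactSupport_sig.fderiv (𝕜 := ℝ)
  have h0 : IntegrableOn (fun s => (1 : ℝ) • J (fderiv ℝ (sig : Eu 2 → ℝ)) f s x -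
      (0 : Eu 2 →L[ℝ] ℝ)) (Ioi (1 : ℝ)) := by
    simp only [one_smul, sub_zero]
    exact far_int1 hs3.continuous hc1 hh hf x
  have h1 := (far_deriv hs3 hc1 hh hf (m := fun _ => 1) continuous_const
    (fun s hs => by rw [abs_one]; exact hs.le)
    (c0 := fun _ => (0 : Eu 2 →L[ℝ] ℝ)) stronglyMeasurable_const x h0).neg
  have e1 : (-fun x => ∫ s in Ioi (1 : ℝ), ((1 : ℝ) • J (fderiv ℝ (sig : Eu 2 → ℝ)) f s x -
      (0 : Eu 2 →L[ℝ] ℝ))) = Hf1 f := by
    funext z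
    rw [Hf1, Pi.neg_apply]
    simp only [one_smul, sub_zero]
  rw [e1] at h1
  refine h1.congr_fderiv ?_
  rw [Hf2, neg_neg]
  simp only [one_mul]

theorem continuous_Hf2 {f : Eu 2 → ℝ} {C : ℝ} (hh : BM f C) (hf : Integrable f) :
    Continuous (Hf2 f) := by
  have hs2 : ContDiff ℝ 2 (fderiv ℝ (sig : Eu 2 → ℝ)) := contDiff_sig.fderiv_right (by norm_num)
  have hs4 : ContDiff ℝ 1 (fderiv ℝ (fderiv ℝ (sig : Eu 2 → ℝ))) := hs2.fderiv_right (by norm_num)
  exact far_cont hs4 ((hasCompactSupport_sig.fderiv (𝕜 := ℝ)).fderiv (𝕜 := ℝ)) hh hf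

theorem contDiff_Hf {f : Eu 2 → ℝ} {C : ℝ} (hh : BM f C) (hf : Integrable f) :
    ContDiff ℝ 2 (Hf f) := by
  have e : (2 : WithTop ℕ∞) = ((1 : ℕ) : WithTop ℕ∞) + 1 := by norm_num
  rw [e, contDiff_succ_iff_hasFDerivAt]
  refine ⟨Hf1 f, ?_, hasFDerivAt_Hf hh hf⟩
  have e1 : ((1 : ℕ) : WithTop ℕ∞) = ((0 : ℕ) : WithTop ℕ∞) + 1 := by norm_num
  rw [e1, contDiff_succ_iff_hasFDerivAt]
  refine ⟨Hf2 f, ?_, hasFDerivAt_Hf1 hh hf⟩
  rw [Nat.cast_zero, contDiff_zero]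
  exact continuous_Hf2 hh hf

theorem lapT_J {d : ℕ} {f : Eu d → ℝ} {C : ℝ} (hh : BM f C) (s : ℝ) (x : Eu d) :
    lapT d (J (fderiv ℝ (fderiv ℝ (sig : Eu d → ℝ))) f s x) =
      J (lap (sig : Eu d → ℝ)) f s x := by
  have hs2 : ContDiff ℝ 2 (fderiv ℝ (sig : Eu d → ℝ)) := contDiff_sig.fderiv_right (by norm_num)
  have hi := (hs2.continuous_fderiv (by norm_num)).integrable_of_hasCompactSupport
    (μ := (volume : Measure (Eu d)))
    ((hasCompactSupport_sig.fderiv (𝕜 := ℝ)).fderiv (𝕜 := ℝ))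
  have e3 := J_clm (lapT d) hi hh s x
  rw [← e3]
  congr 1
  funext y
  exact (lap_eq_lapT _ y).symm

theorem clm_far [CompleteSpace G] {κ : Eu 2 → G} (hκ : Continuous κ) (hc : HasCompactSupport κ)
    {f : Eu 2 → ℝ} {C : ℝ} (hh : BM f C) (hf : Integrable f) (x : Eu 2) (T : G →L[ℝ] ℝ) :
    T (∫ s in Ioi (1 : ℝ), s⁻¹ • J κ f s x) = ∫ s in Ioi (1 : ℝ), s⁻¹ * T (J κ f s x) := by
  have h1 := ContinuousLinearMap.integral_comp_comm T (far_int2 hκ hc hh hf x)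
  rw [← h1]
  congr 1
  funext s
  rw [ContinuousLinearMap.map_smul, smul_eq_mul]

theorem clm_Hf2 {f : Eu 2 → ℝ} {C : ℝ} (hh : BM f C) (hf : Integrable f) (x : Eu 2)
    (T : (Eu 2 →L[ℝ] (Eu 2 →L[ℝ] ℝ)) →L[ℝ] ℝ) :
    T (Hf2 f x) = ∫ s in Ioi (1 : ℝ), s⁻¹ * T (J (fderiv ℝ (fderiv ℝ (sig : Eu 2 → ℝ))) f s x) := by
  have hs2 : ContDiff ℝ 2 (fderiv ℝ (sig : Eu 2 → ℝ)) := contDiff_sig.fderiv_right (by norm_num)
  exact clm_far (hs2.continuous_fderiv (by norm_num))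
    ((hasCompactSupport_sig.fderiv (𝕜 := ℝ)).fderiv (𝕜 := ℝ)) hh hf x T

theorem lapT_Hf2 {f : Eu 2 → ℝ} {C : ℝ} (hh : BM f C) (hf : Integrable f) (x : Eu 2) :
    lapT 2 (Hf2 f x) = - J rho f 1 x := by
  rw [clm_Hf2 hh hf x, ← far_lap hh hf x]
  congr 1
  funext s
  exact congrArg (fun r => s⁻¹ * r) (lapT_J hh s x)

theorem lapT_neg_sub (A B : Eu 2 →L[ℝ] (Eu 2 →L[ℝ] ℝ)) :
    lapT 2 (-A - B) = -(lapT 2 A) - lapT 2 B := by
  simp [lapT]
  ring

theorem Tp_eq (f : Eu 2 → ℝ) : Tp f = fun x => (Npot 0 1 f 0 - Npot 0 1 f x) - Hf f x := rfl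

/-- Brick T3. -/
theorem t_T3 : St_T3 := by
  intro f C hh hf hL
  have hN : ∀ x, ContDiffAt ℝ 2 (Npot 0 1 f) x := fun x => (contDiffAt_Npot one_pos hh (hL x)).1
  have hNC : ContDiff ℝ 2 (Npot 0 1 f) := contDiff_iff_contDiffAt.2 hN
  have hlapN : ∀ x, lap (Npot 0 1 f) x = J rho f 1 x - f x := by
    intro x
    rw [(contDiffAt_Npot one_pos hh (hL x)).2]
    ring
  refine ⟨?_, fun x => ?_⟩
  · rw [Tp_eq]
    exact (contDiff_const.sub hNC).sub (contDiff_Hf hh hf)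
  · have hTd : fderiv ℝ (Tp f) = fun x => -(fderiv ℝ (Npot 0 1 f) x) - Hf1 f x := by
      funext z
      have h1 : HasFDerivAt (Npot 0 1 f) (fderiv ℝ (Npot 0 1 f) z) z :=
        (hNC.differentiable (by norm_num) z).hasFDerivAt
      rw [Tp_eq]
      exact ((h1.const_sub (Npot 0 1 f 0)).sub (hasFDerivAt_Hf hh hf z)).fderiv
    have h1 : HasFDerivAt (fderiv ℝ (Npot 0 1 f)) (fderiv ℝ (fderiv ℝ (Npot 0 1 f)) x) x :=
      ((hNC.fderiv_right (m := 1) (by norm_num)).differentiable (by norm_num) x).hasFDerivAt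
    have hTd2 : fderiv ℝ (fderiv ℝ (Tp f)) x =
        -(fderiv ℝ (fderiv ℝ (Npot 0 1 f)) x) - Hf2 f x := by
      rw [hTd]
      exact (h1.neg.sub (hasFDerivAt_Hf1 hh hf x)).fderiv
    have e1 := hlapN x
    rw [lap_eq_lapT] at e1
    rw [lap_eq_lapT, hTd2, lapT_neg_sub, e1, lapT_Hf2 hh hf x]
    ring

end Pool.Agent.K3h22.GS
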