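import Pool.Agent.K3h75.TO.StmA

/-!
# Brick PK: multiples of a smooth lattice polytope
-/

set_option autoImplicit false

namespace Pool.Agent.K3h22.PK

open Pool.Agent.K3h75.TO Module

variable {Λ : Type} [AddCommGroup Λ]

open Classical in
/-- the sums of `k` elements of `P` -/
noncomputable def Pk (P : Finset Λ) : ℕ → Finset Λ
  | 0 => {0}
  | k + 1 => Finset.image₂ (fun a b => a + b) P (Pk P k)

theorem mem_Pk (P : Finset Λ) (k : ℕ) (x : Λ) :
    x ∈ Pk P k ↔ ∃ t : Multiset Λ, (∀ κ ∈ t, κ ∈ P) ∧ t.card = k ∧ t.sum = x := by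
  classical
  induction k generalizing x with
  | zero =>
    rw [Pk, Finset.mem_singleton]
    constructor
    · rintro rfl
      exact ⟨0, by simp, by simp, by simp⟩
    · rintro ⟨t, _, h2, h3⟩
      rw [Multiset.card_eq_zero] at h2
      rw [← h3, h2]; simp
  | succ k ih =>
    rw [Pk, Finset.mem_image₂]
    constructor
    · rintro ⟨a, ha, c, hc, rfl⟩
      obtain ⟨t, h1, h2, h3⟩ := (ih c).1 hc
      refine ⟨a ::ₘ t, ?_, ?_, ?_⟩
      · intro κ hκ
        rcases Multiset.mem_cons.1 hκ with h | h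
        · rw [h]; exact ha
        · exact h1 κ h
      · rw [Multiset.card_cons, h2]
      · rw [Multiset.sum_cons, h3]
    · rintro ⟨t, h1, h2, h3⟩
      have hne : t ≠ 0 := by
        rintro rfl
        simp at h2
      obtain ⟨a, ha⟩ := Multiset.exists_mem_of_ne_zero hne
      obtain ⟨t', rfl⟩ := Multiset.exists_cons_of_mem ha
      refine ⟨a, h1 a ha, t'.sum, (ih _).2 ⟨t', fun κ hκ => h1 κ (Multiset.mem_cons_of_mem hκ), ?_,
        rfl⟩, ?_⟩
      · rw [Multiset.card_cons] at h2
        omega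
      · rw [← h3, Multiset.sum_cons]

/-- grouping -/
theorem group (P : Finset Λ) (k m : ℕ) (t : Multiset Λ) (ht : ∀ κ ∈ t, κ ∈ P)
    (hc : t.card = k * m) :
    ∃ s : Multiset Λ, (∀ κ ∈ s, κ ∈ Pk P k) ∧ s.card = m ∧ s.sum = t.sum := by
  induction m generalizing t with
  | zero =>
    rw [mul_zero, Multiset.card_eq_zero] at hc
    exact ⟨0, by simp, by simp, by rw [hc]⟩
  | succ m ih =>
    obtain ⟨u, w, rfl, huc⟩ : ∃ u w : Multiset Λ, t = u + w ∧ u.card = k := by
      induction t using Quotient.inductionOn with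
      | h l =>
        refine ⟨(l.take k : List Λ), (l.drop k : List Λ), ?_, ?_⟩
        · rw [Multiset.coe_add, List.take_append_drop]; rfl
        · rw [Multiset.coe_card, List.length_take]
          have : l.length = k * (m + 1) := hc
          rw [this]
          apply min_eq_left
          nlinarith
    obtain ⟨s, h1, h2, h3⟩ := ih w (fun κ hκ => ht κ (Multiset.mem_add.2 (Or.inr hκ))) (by
      rw [Multiset.card_add, huc, mul_add, mul_one] at hc
      omega)
    refine ⟨u.sum ::ₘ s, ?_, ?_, ?_⟩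
    · intro κ hκ
      rcases Multiset.mem_cons.1 hκ with h | h
      · rw [h]
        exact (mem_Pk P k _).2 ⟨u, fun κ hκ => ht κ (Multiset.mem_add.2 (Or.inl hκ)), huc, rfl⟩
      · exact h1 κ h
    · rw [Multiset.card_cons, h2]
    · rw [Multiset.sum_cons, h3, Multiset.sum_add]

theorem smul_mem_Pk (P : Finset Λ) (k : ℕ) {v : Λ} (hv : v ∈ P) : k • v ∈ Pk P k :=
  (mem_Pk P k _).2 ⟨Multiset.replicate k v, fun κ hκ => by
    rw [Multiset.eq_of_mem_replicate hκ]; exact hv, by simp, by simp⟩

/-- the points near a vertex -/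
theorem near_mem (P : Finset Λ) (k : ℕ) {v : Λ} (hv : v ∈ P) {n : ℕ} (b : Basis (Fin n) ℤ Λ)
    (hb : ∀ i, v + b i ∈ P) (m : Fin n → ℕ) (hm : ∑ i, m i ≤ k) :
    k • v + ∑ i, m i • b i ∈ Pk P k := by
  refine (mem_Pk P k _).2 ⟨(∑ i, Multiset.replicate (m i) (v + b i)) +
    Multiset.replicate (k - ∑ i, m i) v, ?_, ?_, ?_⟩
  · intro κ hκ
    rcases Multiset.mem_add.1 hκ with h | h
    · rw [Multiset.mem_sum] at h
      obtain ⟨i, _, hi⟩ := h
      rw [Multiset.eq_of_mem_replicate hi]
      exact hb i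
    · rw [Multiset.eq_of_mem_replicate h]
      exact hv
  · rw [Multiset.card_add, Multiset.card_sum]
    simp only [Multiset.card_replicate]
    omega
  · rw [Multiset.sum_add, Multiset.sum_sum]
    simp only [Multiset.sum_replicate, smul_add]
    rw [Finset.sum_add_distrib, ← Finset.sum_smul]
    have h1 : k • v = (∑ i, m i) • v + (k - ∑ i, m i) • v := by
      rw [← add_smul]
      congr 1
      omega
    rw [h1]
    abel

/-- the bound for one vertex, one group element and one set of coordinates -/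
theorem bound (hLAT : S_LAT) {n : ℕ} (b : Basis (Fin n) ℤ Λ) (τ : Λ →+ Λ) (I : Set (Fin n)) :
    ∃ K : ℕ, ∀ p : ℕ, p.Prime → (∀ a, τ^[p] a = a) → (∀ a, Sp b I a → Sp b I (τ a)) →
      ∃ (r : ℕ) (g : Fin r → Λ), Fam b τ p I g ∧
        ∀ i, ∑ j, (b.repr (g i) j).toNat ≤ K ∧ ∑ j, (-(b.repr (g i) j)).toNat ≤ K := by
  classical
  by_cases h1 : ∀ a, τ a = a
  · refine ⟨0, fun p hp _ _ => ⟨0, Fin.elim0, ?_, fun i => Fin.elim0 i⟩⟩
    refine ⟨fun i => Fin.elim0 i, fun i => Fin.elim0 i, fun c _ i => Fin.elim0 i, ?_,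
      fun i => Fin.elim0 i⟩
    intro a _ hNa
    refine ⟨1, ?_, ?_⟩
    · intro h
      exact hp.one_lt.ne' (Nat.dvd_one.1 h)
    · have h2 : Nm τ p a = p • a := by
        rw [Nm]
        have : ∀ k ∈ Finset.range p, τ^[k] a = a := fun k _ => Function.iterate_fixed (h1 a) k
        rw [Finset.sum_congr rfl this]
        simp
      rw [h2] at hNa
      have h3 : a = 0 := by
        apply b.repr.injective
        ext i
        have h4 : b.repr (p • a) i = 0 := by rw [hNa]; simp
        rw [map_nsmul, Finsupp.smul_apply, nsmul_eq_mul] at h4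
        have h5 : (p : ℤ) ≠ 0 := by exact_mod_cast hp.ne_zero
        rcases mul_eq_zero.1 h4 with h | h
        · exact absurd h h5
        · rw [h]; simp
      rw [h3, smul_zero]
      exact AddSubgroup.zero_mem _
  · by_cases h2 : ∃ p : ℕ, p.Prime ∧ (∀ a, τ^[p] a = a) ∧ (∀ a, Sp b I a → Sp b I (τ a))
    · obtain ⟨p0, hp0, hτ0, hI⟩ := h2
      obtain ⟨r, g, hg⟩ := hLAT Λ n b τ p0 hp0 hτ0 I hI
      refine ⟨∑ i, ∑ j, (b.repr (g i) j).natAbs, fun p hp hτ _ => ?_⟩
      have hpp : p = p0 := by
        by_contra hne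
        apply h1
        intro a
        have e1 : Function.IsPeriodicPt τ p a := hτ a
        have e2 : Function.IsPeriodicPt τ p0 a := hτ0 a
        have e3 := e1.gcd e2
        rw [(Nat.coprime_primes hp hp0).2 hne] at e3
        exact e3
      subst hpp
      refine ⟨r, g, hg, fun i => ?_⟩
      have h3 : ∑ j, (b.repr (g i) j).natAbs ≤ ∑ i, ∑ j, (b.repr (g i) j).natAbs :=
        Finset.single_le_sum (f := fun i => ∑ j, (b.repr (g i) j).natAbs)
          (fun _ _ => Nat.zero_le _) (Finset.mem_univ i)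
      constructor
      · refine le_trans (Finset.sum_le_sum fun j _ => ?_) h3
        omega
      · refine le_trans (Finset.sum_le_sum fun j _ => ?_) h3
        omega
    · refine ⟨0, fun p hp hτ hI => ?_⟩
      exact absurd ⟨p, hp, hτ, hI⟩ h2

/-- **PK** -/
theorem t_PK : S_LAT → S_PK := by
  classical
  intro hLAT Λ G _ _ _ _ P hP hG
  -- choose the vertices
  choose v hv hs nn b hbP hbn using fun μ : {x // x ∈ P} => hP.vx μ.1 μ.2
  -- the bounds
  choose K hK using fun (μ : {x // x ∈ P}) (g : G) (I : Set (Fin (nn μ))) =>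
    bound hLAT (b μ) (DistribSMul.toAddMonoidHom Λ g) I
  obtain ⟨k, hk1, hk⟩ : ∃ k : ℕ, 1 ≤ k ∧ ∀ μ g I, K μ g I ≤ k := by
    have hfin : (Set.range fun q : (Σ μ : {x // x ∈ P}, G × Set (Fin (nn μ))) =>
        K q.1 q.2.1 q.2.2).Finite := Set.finite_range _
    obtain ⟨B, hB⟩ := hfin.bddAbove
    exact ⟨B + 1, by omega, fun μ g I => (hB ⟨⟨μ, g, I⟩, rfl⟩).trans (Nat.le_succ B)⟩
  refine ⟨Pk P k, ?_, ?_, ?_⟩
  · obtain ⟨x, hx⟩ := hP.ne
    exact ⟨k • x, smul_mem_Pk P k hx⟩
  · intro g μ hμ
    obtain ⟨t, h1, h2, h3⟩ := (mem_Pk P k μ).1 hμ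
    refine (mem_Pk P k _).2 ⟨t.map (fun x => g • x), ?_, ?_, ?_⟩
    · intro κ hκ
      obtain ⟨a, ha, rfl⟩ := Multiset.mem_map.1 hκ
      exact hG g a (h1 a ha)
    · rw [Multiset.card_map, h2]
    · rw [← h3, Multiset.smul_sum]
  · intro μ hμ
    obtain ⟨t, h1, h2, h3⟩ := (mem_Pk P k μ).1 hμ
    have hne : t ≠ 0 := by
      rintro rfl
      simp at h2
      omega
    obtain ⟨μ1, hμ1⟩ := Multiset.exists_mem_of_ne_zero hne
    obtain ⟨t', rfl⟩ := Multiset.exists_cons_of_mem hμ1
    set w : {x // x ∈ P} := ⟨μ1, h1 μ1 hμ1⟩ with hw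
    have ht' : ∀ κ ∈ t', κ ∈ P := fun κ hκ => h1 κ (Multiset.mem_cons_of_mem hκ)
    have hct' : t'.card = k - 1 := by
      rw [Multiset.card_cons] at h2
      omega
    refine ⟨k • v w, smul_mem_Pk P k (hv w), ?_, nn w, b w, ?_, ?_, ?_⟩
    · obtain ⟨s, hs1, hs2⟩ := hs w
      -- n = s.card + 1
      have hbr := group P k ((s.card + 1) * k - 1)
        (k • s + ((s.card + 1) * k) • t') (by
          intro κ hκ
          rcases Multiset.mem_add.1 hκ with h | h
          · exact hs1 κ (Multiset.mem_of_mem_nsmul h)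
          · exact ht' κ (Multiset.mem_of_mem_nsmul h)) (by
          rw [Multiset.card_add, Multiset.card_nsmul, Multiset.card_nsmul, hct']
          obtain ⟨j, rfl⟩ : ∃ j, k = j + 1 := ⟨k - 1, by omega⟩
          have e1 : j + 1 - 1 = j := by omega
          have e2 : (s.card + 1) * (j + 1) - 1 = s.card * (j + 1) + j := by
            have : (s.card + 1) * (j + 1) = s.card * (j + 1) + j + 1 := by ring
            omega
          rw [e1, e2]
          ring)
      obtain ⟨s', hs'1, hs'2, hs'3⟩ := hbr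
      refine ⟨s', hs'1, ?_⟩
      have hpos : 1 ≤ (s.card + 1) * k := by nlinarith
      rw [hs'2, hs'3, Nat.sub_add_cancel hpos, ← h3, Multiset.sum_cons, Multiset.sum_add,
        Multiset.sum_nsmul, Multiset.sum_nsmul, smul_add]
      have e1 : ((s.card + 1) * k) • μ1 = k • v w + k • s.sum := by
        rw [mul_comm, mul_smul]
        have : (s.card + 1) • μ1 = v w + s.sum := hs2
        rw [this, smul_add]
      rw [e1]
      abel
    · intro i
      have h4 := near_mem P k (hv w) (b w) (hbP w) (fun j => if j = i then 1 else 0) (by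
        rw [Finset.sum_ite_eq' Finset.univ i (fun _ => 1)]
        simp; exact hk1)
      have h5 : ∑ j, (if j = i then 1 else 0) • (b w) j = (b w) i := by
        simp
      rwa [h5] at h4
    · intro κ hκ i
      obtain ⟨u, hu1, hu2, hu3⟩ := (mem_Pk P k κ).1 hκ
      have h6 : κ - k • v w = (u.map (fun x => x - v w)).sum := by
        rw [Multiset.sum_map_sub, Multiset.map_id', Multiset.map_const', Multiset.sum_replicate,
          hu2, hu3]
      rw [h6]
      have h7 : ∀ u : Multiset Λ, (∀ κ ∈ u, κ ∈ P) →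
          0 ≤ (b w).repr ((u.map (fun x => x - v w)).sum) i := by
        intro u
        induction u using Multiset.induction_on with
        | empty => intro _; simp
        | cons a u ih =>
          intro hu
          rw [Multiset.map_cons, Multiset.sum_cons, map_add, Finsupp.add_apply]
          exact add_nonneg (hbn w a (hu a (Multiset.mem_cons_self a u)) i)
            (ih fun κ hκ => hu κ (Multiset.mem_cons_of_mem hκ))
      exact h7 u hu1
    · intro g p hp hgp I hI
      obtain ⟨r, gg, hF, hsum⟩ := hK w g I p hp hgp hI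
      refine ⟨r, gg, hF, fun i => ?_⟩
      refine ⟨k • v w + ∑ j, ((b w).repr (gg i) j).toNat • (b w) j,
        near_mem P k (hv w) (b w) (hbP w) _ ((hsum i).1.trans (hk w g I)),
        k • v w + ∑ j, (-((b w).repr (gg i) j)).toNat • (b w) j,
        near_mem P k (hv w) (b w) (hbP w) _ ((hsum i).2.trans (hk w g I)), ?_, ?_, ?_⟩
      · intro j hj
        rw [add_sub_cancel_left]
        have hz := hF.sp i j hj
        rw [map_sum, Finsupp.finsetSum_apply]
        refine Finset.sum_eq_zero fun l _ => ?_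
        rw [map_nsmul, Finsupp.smul_apply, Basis.repr_self, Finsupp.single_apply]
        split_ifs with h
        · rw [h, hz]; simp
        · simp
      · intro j hj
        rw [add_sub_cancel_left]
        have hz := hF.sp i j hj
        rw [map_sum, Finsupp.finsetSum_apply]
        refine Finset.sum_eq_zero fun l _ => ?_
        rw [map_nsmul, Finsupp.smul_apply, Basis.repr_self, Finsupp.single_apply]
        split_ifs with h
        · rw [h, hz]; simp
        · simp
      · rw [add_sub_add_left_eq_sub, ← Finset.sum_sub_distrib]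
        have h8 : ∀ j, ((b w).repr (gg i) j).toNat • (b w) j -
            (-((b w).repr (gg i) j)).toNat • (b w) j = (b w).repr (gg i) j • (b w) j := by
          intro j
          rw [← natCast_zsmul, ← natCast_zsmul, ← sub_smul]
          congr 1
          omega
        rw [Finset.sum_congr rfl fun j _ => h8 j]
        exact (b w).sum_repr (gg i)

end Pool.Agent.K3h22.PK
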