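import Pool.Agent.K3h53.LT.Stm

/-!
# Brick TRANS: from the equation on the line to the radial equation
-/

open MeasureTheory Filter Topology Set
open scoped ENNReal NNReal ContDiff

namespace Pool.Agent.K3h22.LT

open Pool.Agent.K3h53.LT

theorem one_add_exp_pos (x : ℝ) : 0 < 1 + Real.exp x := by positivity

theorem sgm_pos (x : ℝ) : 0 < sgm x := by unfold sgm; positivity

theorem sgm_lt_one (x : ℝ) : sgm x < 1 := by
  unfold sgm
  rw [div_lt_one (by positivity)]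
  linarith

theorem spl_pos (x : ℝ) : 0 < spl x := Real.log_pos (by linarith [Real.exp_pos x])

theorem hasDerivAt_sgm (x : ℝ) : HasDerivAt sgm (sgm x * (1 - sgm x)) x := by
  have h1 := Real.hasDerivAt_exp x
  have h2 : HasDerivAt (fun y => 1 + Real.exp y) (Real.exp x) x := h1.const_add 1
  have h3 := h1.div h2 (one_add_exp_pos x).ne'
  have h4 : HasDerivAt sgm ((Real.exp x * (1 + Real.exp x) - Real.exp x * Real.exp x) /
      (1 + Real.exp x) ^ 2) x := h3
  refine h4.congr_deriv ?_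
  unfold sgm
  have := (one_add_exp_pos x).ne'
  field_simp

theorem hasDerivAt_spl (x : ℝ) : HasDerivAt spl (sgm x) x := by
  have h1 : HasDerivAt (fun y => 1 + Real.exp y) (Real.exp x) x :=
    (Real.hasDerivAt_exp x).const_add 1
  exact h1.log (one_add_exp_pos x).ne'

theorem continuous_sgm : Continuous sgm :=
  continuous_iff_continuousAt.2 fun x => (hasDerivAt_sgm x).continuousAt

/-- `sgm ≤ spl` -/
theorem sgm_le_spl (x : ℝ) : sgm x ≤ spl x := by
  have h := Real.one_sub_inv_le_log_of_pos (one_add_exp_pos x)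
  have h2 : sgm x = 1 - (1 + Real.exp x)⁻¹ := by
    unfold sgm
    have := (one_add_exp_pos x).ne'
    field_simp
    ring
  rw [h2]
  exact h

theorem hasDerivAt_rad (R η s : ℝ) :
    HasDerivAt (rad R η) (R / Real.log 2 * (sgm (η * s) * η)) s := by
  have h1 : HasDerivAt (fun s => η * s) η s := by
    simpa using (hasDerivAt_id s).const_mul η
  have h2 := (hasDerivAt_spl (η * s)).comp s h1
  exact h2.const_mul (R / Real.log 2)

theorem log2_pos : 0 < Real.log 2 := Real.log_pos (by norm_num)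

theorem rad_pos {R : ℝ} (hR : 0 < R) (η s : ℝ) : 0 < rad R η s :=
  mul_pos (div_pos hR log2_pos) (spl_pos _)

theorem exp_sub_one_pos {R r : ℝ} (hR : 0 < R) (hr : 0 < r) :
    0 < Real.exp (r * Real.log 2 / R) - 1 := by
  have : 0 < r * Real.log 2 / R := div_pos (mul_pos hr log2_pos) hR
  have := Real.one_lt_exp_iff.2 this
  linarith

theorem exp_sof {R η r : ℝ} (hR : 0 < R) (hη : 0 < η) (hr : 0 < r) :
    Real.exp (η * sof R η r) = Real.exp (r * Real.log 2 / R) - 1 := by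
  unfold sof
  rw [mul_div_cancel₀ _ hη.ne', Real.exp_log (exp_sub_one_pos hR hr)]

theorem rad_sof {R η r : ℝ} (hR : 0 < R) (hη : 0 < η) (hr : 0 < r) : rad R η (sof R η r) = r := by
  unfold rad spl
  rw [exp_sof hR hη hr, add_sub_cancel, Real.log_exp]
  have := log2_pos.ne'
  field_simp

theorem sof_rad {R η : ℝ} (hR : 0 < R) (hη : 0 < η) (s : ℝ) : sof R η (rad R η s) = s := by
  have h1 := exp_sof (η := η) hR hη (rad_pos hR η s)
  have h2 : rad R η s * Real.log 2 / R = spl (η * s) := by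
    unfold rad
    have := log2_pos.ne'
    field_simp
  rw [h2] at h1
  unfold spl at h1
  rw [Real.exp_log (one_add_exp_pos _), add_sub_cancel_left] at h1
  have h3 := Real.exp_injective h1
  exact mul_left_cancel₀ hη.ne' h3

theorem sgm_sof {R η r : ℝ} (hR : 0 < R) (hη : 0 < η) (hr : 0 < r) :
    sgm (η * sof R η r) = (Real.exp (r * Real.log 2 / R) - 1) / Real.exp (r * Real.log 2 / R) := by
  unfold sgm
  rw [exp_sof hR hη hr, add_sub_cancel]

theorem hasDerivAt_sof {R η r : ℝ} (hR : 0 < R) (hη : 0 < η) (hr : 0 < r) :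
    HasDerivAt (sof R η) (1 / (R * η / Real.log 2 * sgm (η * sof R η r))) r := by
  have h0 : HasDerivAt (fun r : ℝ => r * Real.log 2 / R) (Real.log 2 / R) r := by
    have := ((hasDerivAt_id r).mul_const (Real.log 2)).div_const R
    simpa using this
  have h1 := (h0.exp.sub_const 1).log (exp_sub_one_pos hR hr).ne'
  have h2 := h1.div_const η
  refine HasDerivAt.congr_deriv (f := sof R η) h2 ?_
  rw [sgm_sof hR hη hr]
  have e1 := (exp_sub_one_pos hR hr).ne'
  have e2 := (Real.exp_pos (r * Real.log 2 / R)).ne'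
  have e3 := log2_pos.ne'
  field_simp

/-- the square root of the logistic function -/
noncomputable def tt (η s : ℝ) : ℝ := √(sgm (η * s))

theorem tt_pos (η s : ℝ) : 0 < tt η s := Real.sqrt_pos.2 (sgm_pos _)

theorem tt_sq (η s : ℝ) : tt η s ^ 2 = sgm (η * s) := Real.sq_sqrt (sgm_pos _).le

theorem hasDerivAt_tt (η s : ℝ) :
    HasDerivAt (tt η) (η / 2 * (1 - tt η s ^ 2) * tt η s) s := by
  have h1 : HasDerivAt (fun s => η * s) η s := by
    simpa using (hasDerivAt_id s).const_mul η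
  have h2 := (hasDerivAt_sgm (η * s)).comp s h1
  have h3 := h2.sqrt (sgm_pos (η * s)).ne'
  have h4 : HasDerivAt (tt η) (sgm (η * s) * (1 - sgm (η * s)) * η /
      (2 * √((sgm ∘ fun s => η * s) s))) s := h3
  refine h4.congr_deriv ?_
  have e1 : √((sgm ∘ fun s => η * s) s) = tt η s := rfl
  have e2 := (tt_pos η s).ne'
  rw [e1, ← tt_sq]
  field_simp

/-- `F = sgm^(1/2) y` as a function of `r` -/
noncomputable def FF (R η : ℝ) (y : ℝ → ℂ) (r : ℝ) : ℂ := (tt η (sof R η r) : ℂ) * y (sof R η r)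

/-- its derivative -/
noncomputable def FF1 (R η : ℝ) (y y1 : ℝ → ℂ) (r : ℝ) : ℂ :=
  ((1 / (R * η / Real.log 2 * tt η (sof R η r)) : ℝ) : ℂ) *
    (((η * (1 - tt η (sof R η r) ^ 2) / 2 : ℝ) : ℂ) * y (sof R η r) + y1 (sof R η r))

theorem hasDerivAt_FF {R η : ℝ} (hR : 0 < R) (hη : 0 < η) {Q y y1 : ℝ → ℂ} (hy : Sol Q y y1)
    {r : ℝ} (hr : 0 < r) : HasDerivAt (FF R η y) (FF1 R η y y1 r) r := by
  set s := sof R η r with hs
  have h1 := ((hasDerivAt_tt η s).ofReal_comp).mul (hy.1 s)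
  have h2 := h1.scomp r (hasDerivAt_sof hR hη hr)
  have h3 : HasDerivAt (FF R η y) ((1 / (R * η / Real.log 2 * sgm (η * sof R η r))) •
      (((η / 2 * (1 - tt η s ^ 2) * tt η s : ℝ) : ℂ) * y s + (tt η s : ℂ) * y1 s)) r := h2
  refine h3.congr_deriv ?_
  rw [FF1, ← hs, ← tt_sq]
  have hc : (R * η / Real.log 2 : ℝ) ≠ 0 := (div_pos (mul_pos hR hη) log2_pos).ne'
  have ht : tt η s ≠ 0 := (tt_pos η s).ne'
  generalize R * η / Real.log 2 = c at *
  generalize tt η s = t at *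
  have hc' : (c : ℂ) ≠ 0 := by exact_mod_cast hc
  have ht' : (t : ℂ) ≠ 0 := by exact_mod_cast ht
  rw [Complex.real_smul]
  push_cast
  field_simp

theorem hasDerivAt_FF1 {d ℓ : ℕ} {R η A h : ℝ} {v : ℝ → ℂ} {e : ℂ} {y y1 : ℝ → ℂ}
    (hR : 0 < R) (hη : 0 < η) (hA : 0 < A) (hh : 0 < h) (hrel : η * R * √A = 2 * Real.log 2 * h)
    (hy : Sol (fun s => ((aa η (nu d ℓ) s : ℝ) : ℂ) +
      ((bb η s : ℝ) : ℂ) * (v (rad R η s) / (A : ℂ) - e)) y y1)
    {r : ℝ} (hr : 0 < r) : HasDerivAt (FF1 R η y y1)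
      (((((nu d ℓ) ^ 2 - 1 / 4) / r ^ 2 : ℝ) + (v r - A * e) / ((h ^ 2 : ℝ) : ℂ)) * FF R η y r) r := by
  set s := sof R η r with hs
  have hc : 0 < (R * η / Real.log 2 : ℝ) := div_pos (mul_pos hR hη) log2_pos
  have ht : 0 < tt η s := tt_pos η s
  -- the derivative of the first factor
  have hU : HasDerivAt (fun s => 1 / (R * η / Real.log 2 * tt η s))
      (-(η / 2 * (1 - tt η s ^ 2)) * (1 / (R * η / Real.log 2 * tt η s))) s := by
    have h1 := ((hasDerivAt_tt η s).const_mul (R * η / Real.log 2)).inv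
      (mul_pos hc ht).ne'
    have h2 : HasDerivAt (fun s => 1 / (R * η / Real.log 2 * tt η s))
      (-(R * η / Real.log 2 * (η / 2 * (1 - tt η s ^ 2) * tt η s)) /
        (R * η / Real.log 2 * tt η s) ^ 2) s := by
      simp only [one_div]
      exact h1
    refine h2.congr_deriv ?_
    generalize R * η / Real.log 2 = c at *
    have hc1 := hc.ne'
    have ht1 := ht.ne'
    field_simp
  have hV : HasDerivAt (fun s => η * (1 - tt η s ^ 2) / 2)
      (-(η ^ 2 / 2 * tt η s ^ 2 * (1 - tt η s ^ 2))) s := by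
    have h1 := (((hasDerivAt_tt η s).pow 2).const_sub 1).const_mul η
    have h2 := h1.div_const 2
    refine h2.congr_deriv ?_
    norm_num
    ring
  have hG := (hV.ofReal_comp.mul (hy.1 s)).add (hy.2.1 s)
  have h1 := hU.ofReal_comp.mul hG
  have h2 := h1.scomp r (hasDerivAt_sof hR hη hr)
  refine HasDerivAt.congr_deriv (f := FF1 R η y y1) h2 ?_
  rw [← hs, FF, ← hs, ← tt_sq]
  have hrad : rad R η s = r := rad_sof hR hη hr
  have hspl : spl (η * s) = r * Real.log 2 / R := by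
    have h3 : rad R η s = R / Real.log 2 * spl (η * s) := rfl
    rw [hrad] at h3
    have := log2_pos.ne'
    have := hR.ne'
    rw [h3]
    field_simp
  have hq : aa η (nu d ℓ) s = η ^ 2 * ((tt η s ^ 2 / (r * Real.log 2 / R)) ^ 2 *
      ((nu d ℓ) ^ 2 - 1 / 4) + (1 - (tt η s ^ 2) ^ 2) / 4) := by
    rw [aa, hspl, ← tt_sq]
  have hb : bb η s = 4 * (tt η s ^ 2) ^ 2 := by rw [bb, ← tt_sq]
  have hAh : A = (2 * Real.log 2 * h / (η * R)) ^ 2 := by
    have h3 : √A = 2 * Real.log 2 * h / (η * R) := by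
      rw [← hrel]
      have := hη.ne'
      have := hR.ne'
      field_simp
    rw [← h3, Real.sq_sqrt hA.le]
  simp only [Pi.add_apply, Pi.mul_apply, hrad, hq, hb]
  have hlog := log2_pos.ne'
  generalize Real.log 2 = lg at *
  generalize tt η s = t at *
  generalize y s = Y at *
  generalize y1 s = Y1 at *
  generalize v r = vr at *
  generalize nu d ℓ = n at *
  have hAc : (A : ℂ) = (2 * lg * h / (η * R)) ^ 2 := by rw [hAh]; push_cast; rfl
  rw [Complex.real_smul, hAc]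
  push_cast
  have l1 : (lg : ℂ) ≠ 0 := by exact_mod_cast hlog
  have l2 : (t : ℂ) ≠ 0 := by exact_mod_cast ht.ne'
  have l3 : (R : ℂ) ≠ 0 := by exact_mod_cast hR.ne'
  have l4 : (η : ℂ) ≠ 0 := by exact_mod_cast hη.ne'
  have l5 : (h : ℂ) ≠ 0 := by exact_mod_cast hh.ne'
  have l6 : (r : ℂ) ≠ 0 := by exact_mod_cast hr.ne'
  field_simp
  ring

theorem sol_cont {Q y y1 : ℝ → ℂ} (hy : Sol Q y y1) : Continuous y :=
  continuous_iff_continuousAt.2 fun s => (hy.1 s).continuousAt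

theorem sol_cont1 {Q y y1 : ℝ → ℂ} (hy : Sol Q y y1) : Continuous y1 :=
  continuous_iff_continuousAt.2 fun s => (hy.2.1 s).continuousAt

/-- extension of the exponential bound to a half line -/
theorem ext_bound {y : ℝ → ℂ} (hy : Continuous y) {b C s0 : ℝ}
    (h : ∀ s ≤ s0, ‖y s‖ ≤ C * Real.exp (b * s)) (s1 : ℝ) :
    ∃ C1 : ℝ, 0 ≤ C1 ∧ ∀ s ≤ s1, ‖y s‖ ≤ C1 * Real.exp (b * s) := by
  have hc : ContinuousOn (fun s => ‖y s‖ * Real.exp (-(b * s))) (Icc s0 s1) := by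
    apply Continuous.continuousOn
    exact hy.norm.mul (Real.continuous_exp.comp (continuous_const.mul continuous_id).neg)
  obtain ⟨M, hM⟩ := isCompact_Icc.exists_bound_of_continuousOn hc
  refine ⟨max 0 (max C M), le_max_left _ _, fun s hs => ?_⟩
  have hpos := Real.exp_pos (b * s)
  rcases le_total s s0 with h1 | h1
  · exact (h s h1).trans (mul_le_mul_of_nonneg_right
      ((le_max_left _ _).trans (le_max_right _ _)) hpos.le)
  · have h2 := hM s ⟨h1, hs⟩
    rw [Real.norm_eq_abs] at h2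
    have h3 := (le_abs_self _).trans h2
    have h4 : ‖y s‖ ≤ M * Real.exp (b * s) := by
      have h5 : ‖y s‖ = (‖y s‖ * Real.exp (-(b * s))) * Real.exp (b * s) := by
        rw [mul_assoc, ← Real.exp_add, neg_add_cancel, Real.exp_zero, mul_one]
      rw [h5]
      exact mul_le_mul_of_nonneg_right h3 hpos.le
    exact h4.trans (mul_le_mul_of_nonneg_right
      ((le_max_right _ _).trans (le_max_right _ _)) hpos.le)

theorem sof_le_sof_one {R η r : ℝ} (hR : 0 < R) (hη : 0 < η) (hr : 0 < r) (hr1 : r ≤ 1) :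
    sof R η r ≤ sof R η 1 := by
  unfold sof
  apply div_le_div_of_nonneg_right _ hη.le
  apply Real.log_le_log (exp_sub_one_pos hR hr)
  have : Real.exp (r * Real.log 2 / R) ≤ Real.exp (1 * Real.log 2 / R) := by
    apply Real.exp_le_exp.2
    apply div_le_div_of_nonneg_right _ hR.le
    exact mul_le_mul_of_nonneg_right hr1 log2_pos.le
  linarith

/-- bounds near the origin -/
theorem near_zero {R η ν : ℝ} (hR : 0 < R) (hη : 0 < η) (hν : 0 ≤ ν) {y y1 : ℝ → ℂ}
    (hy : Continuous y) (hy1 : Continuous y1)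
    (hb : ∃ C s0 : ℝ, ∀ s ≤ s0, ‖y s‖ ≤ C * Real.exp (2 / 3 * (η * ν) * s) ∧
      ‖y1 s‖ ≤ C * Real.exp (2 / 3 * (η * ν) * s)) :
    ∃ K : ℝ, 0 ≤ K ∧ ∀ r : ℝ, 0 < r → r ≤ 1 →
      ‖FF R η y r‖ ≤ K * r ^ (2 / 3 * ν + 1 / 2) ∧
      ‖FF1 R η y y1 r‖ ≤ K * r ^ (2 / 3 * ν - 1 / 2) := by
  obtain ⟨C, s0, hb⟩ := hb
  obtain ⟨C1, hC1, h1⟩ := ext_bound hy (fun s hs => (hb s hs).1) (sof R η 1)
  obtain ⟨C2, hC2, h2⟩ := ext_bound hy1 (fun s hs => (hb s hs).2) (sof R η 1)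
  set k : ℝ := Real.log 2 / R with hk
  have hkpos : 0 < k := div_pos log2_pos hR
  set B : ℝ := k * Real.exp k with hB
  have hBpos : 0 < B := by positivity
  set c : ℝ := R * η / Real.log 2 with hc
  have hcpos : 0 < c := div_pos (mul_pos hR hη) log2_pos
  set α : ℝ := 2 / 3 * ν with hα
  have hα0 : 0 ≤ α := by positivity
  set q : ℝ := √(k / Real.exp k) with hq
  have hqpos : 0 < q := Real.sqrt_pos.2 (by positivity)
  set K1 : ℝ := √B * (C1 * B ^ α) with hK1
  set K2 : ℝ := 1 / (c * q) * ((η / 2 * C1 + C2) * B ^ α) with hK2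
  have hK10 : 0 ≤ K1 := by positivity
  have hK20 : 0 ≤ K2 := by positivity
  refine ⟨K1 + K2, by positivity, fun r hr hr1 => ?_⟩
  set s := sof R η r with hs
  have hs1 : s ≤ sof R η 1 := sof_le_sof_one hR hη hr hr1
  have hX : Real.exp (η * s) = Real.exp (k * r) - 1 := by
    rw [hs, exp_sof hR hη hr, hk]
    congr 2
    ring
  have hXup : Real.exp (η * s) ≤ B * r := by
    rw [hX]
    have e1 := Real.add_one_le_exp (-(k * r))
    have e2 : Real.exp (k * r) * Real.exp (-(k * r)) = 1 := by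
      rw [← Real.exp_add, add_neg_cancel, Real.exp_zero]
    have e3 : Real.exp (k * r) ≤ Real.exp k := Real.exp_le_exp.2 (by nlinarith)
    have e4 := Real.exp_pos (k * r)
    have e5 : Real.exp (k * r) - 1 ≤ (k * r) * Real.exp (k * r) := by nlinarith
    have e6 : (k * r) * Real.exp (k * r) ≤ (k * r) * Real.exp k :=
      mul_le_mul_of_nonneg_left e3 (by positivity)
    calc Real.exp (k * r) - 1 ≤ (k * r) * Real.exp k := e5.trans e6
      _ = B * r := by rw [hB]; ring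
  have hXlow : k * r ≤ Real.exp (η * s) := by
    rw [hX]
    linarith [Real.add_one_le_exp (k * r)]
  have hXpos := Real.exp_pos (η * s)
  have hexpα : Real.exp (2 / 3 * (η * ν) * s) ≤ B ^ α * r ^ α := by
    have e1 : Real.exp (2 / 3 * (η * ν) * s) = Real.exp (η * s) ^ α := by
      rw [← Real.exp_mul, hα]
      congr 1
      ring
    rw [e1, ← Real.mul_rpow hBpos.le hr.le]
    exact Real.rpow_le_rpow hXpos.le hXup hα0
  have hrα : 0 ≤ r ^ α := Real.rpow_nonneg hr.le _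
  have hy_b : ‖y s‖ ≤ C1 * B ^ α * r ^ α := by
    calc ‖y s‖ ≤ C1 * Real.exp (2 / 3 * (η * ν) * s) := h1 s hs1
      _ ≤ C1 * (B ^ α * r ^ α) := mul_le_mul_of_nonneg_left hexpα hC1
      _ = C1 * B ^ α * r ^ α := by ring
  have hy1_b : ‖y1 s‖ ≤ C2 * B ^ α * r ^ α := by
    calc ‖y1 s‖ ≤ C2 * Real.exp (2 / 3 * (η * ν) * s) := h2 s hs1
      _ ≤ C2 * (B ^ α * r ^ α) := mul_le_mul_of_nonneg_left hexpα hC2
      _ = C2 * B ^ α * r ^ α := by ring
  have htup : tt η s ≤ √B * √r := by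
    rw [← Real.sqrt_mul hBpos.le]
    unfold tt
    apply Real.sqrt_le_sqrt
    refine le_trans ?_ hXup
    unfold sgm
    rw [div_le_iff₀ (by positivity)]
    nlinarith
  have htlow : q * √r ≤ tt η s := by
    rw [hq, ← Real.sqrt_mul (by positivity)]
    unfold tt
    apply Real.sqrt_le_sqrt
    unfold sgm
    rw [hX, add_sub_cancel]
    have e3 : Real.exp (k * r) ≤ Real.exp k := Real.exp_le_exp.2 (by nlinarith)
    rw [← hX, div_mul_eq_mul_div]
    exact div_le_div₀ hXpos.le hXlow (Real.exp_pos _) e3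
  have hsr : √r = r ^ (1 / 2 : ℝ) := Real.sqrt_eq_rpow r
  have hsrpos : 0 < √r := Real.sqrt_pos.2 hr
  have ht := tt_pos η s
  constructor
  · rw [FF, norm_mul, Complex.norm_real, Real.norm_eq_abs, ← hs, abs_of_pos ht]
    calc tt η s * ‖y s‖ ≤ (√B * √r) * (C1 * B ^ α * r ^ α) :=
          mul_le_mul htup hy_b (norm_nonneg _) (by positivity)
      _ = K1 * (r ^ α * √r) := by rw [hK1]; ring
      _ = K1 * r ^ (α + 1 / 2) := by rw [hsr, ← Real.rpow_add hr]
      _ ≤ (K1 + K2) * r ^ (α + 1 / 2) := by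
          apply mul_le_mul_of_nonneg_right _ (Real.rpow_nonneg hr.le _)
          linarith
  · have htsq : tt η s ^ 2 < 1 := by rw [tt_sq]; exact sgm_lt_one _
    have e1 : ‖FF1 R η y y1 r‖ ≤ 1 / (c * tt η s) * (η / 2 * ‖y s‖ + ‖y1 s‖) := by
      rw [FF1, norm_mul, Complex.norm_real, Real.norm_eq_abs, ← hs, ← hc,
        abs_of_pos (by positivity)]
      apply mul_le_mul_of_nonneg_left _ (by positivity)
      refine (norm_add_le _ _).trans ?_
      rw [norm_mul, Complex.norm_real, Real.norm_eq_abs]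
      have e2 : |η * (1 - tt η s ^ 2) / 2| ≤ η / 2 := by
        rw [abs_of_nonneg (by
          have : 0 ≤ 1 - tt η s ^ 2 := by linarith
          positivity)]
        have : 0 < tt η s ^ 2 := by positivity
        nlinarith
      have := mul_le_mul_of_nonneg_right e2 (norm_nonneg (y s))
      linarith
    have e3 : 1 / (c * tt η s) ≤ 1 / (c * q) * (√r)⁻¹ := by
      rw [one_div, one_div, ← mul_inv]
      apply inv_anti₀ (by positivity)
      rw [mul_assoc]
      exact mul_le_mul_of_nonneg_left htlow hcpos.le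
    have e4 : η / 2 * ‖y s‖ + ‖y1 s‖ ≤ (η / 2 * C1 + C2) * B ^ α * r ^ α := by
      have := mul_le_mul_of_nonneg_left hy_b (by positivity : 0 ≤ η / 2)
      calc η / 2 * ‖y s‖ + ‖y1 s‖ ≤ η / 2 * (C1 * B ^ α * r ^ α) + C2 * B ^ α * r ^ α := by
            linarith
        _ = (η / 2 * C1 + C2) * B ^ α * r ^ α := by ring
    have e5 : r ^ (α - 1 / 2) = r ^ α * (√r)⁻¹ := by
      rw [hsr, ← Real.rpow_neg hr.le, ← Real.rpow_add hr]
      congr 1
    calc ‖FF1 R η y y1 r‖ ≤ 1 / (c * tt η s) * (η / 2 * ‖y s‖ + ‖y1 s‖) := e1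
      _ ≤ (1 / (c * q) * (√r)⁻¹) * ((η / 2 * C1 + C2) * B ^ α * r ^ α) :=
          mul_le_mul e3 e4 (by positivity) (by positivity)
      _ = K2 * (r ^ α * (√r)⁻¹) := by rw [hK2]; ring
      _ = K2 * r ^ (α - 1 / 2) := by rw [e5]
      _ ≤ (K1 + K2) * r ^ (α - 1 / 2) := by
          apply mul_le_mul_of_nonneg_right _ (Real.rpow_nonneg hr.le _)
          linarith

/-- the power in front -/
theorem hasDerivAt_pw {m r : ℝ} (hr : 0 < r) :
    HasDerivAt (fun r : ℝ => ((r ^ (-m) : ℝ) : ℂ)) (((r ^ (-m) : ℝ) : ℂ) * (-((m / r : ℝ) : ℂ))) r := by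
  have h1 := (Real.hasDerivAt_rpow_const (x := r) (p := -m) (Or.inl hr.ne')).ofReal_comp
  refine h1.congr_deriv ?_
  rw [Real.rpow_sub_one hr.ne']
  push_cast
  have : (r : ℂ) ≠ 0 := by exact_mod_cast hr.ne'
  field_simp

/-- the radial profile -/
noncomputable def ff (R η m : ℝ) (y : ℝ → ℂ) (r : ℝ) : ℂ := ((r ^ (-m) : ℝ) : ℂ) * FF R η y r

/-- its derivative -/
noncomputable def ff1 (R η m : ℝ) (y y1 : ℝ → ℂ) (r : ℝ) : ℂ :=
  ((r ^ (-m) : ℝ) : ℂ) * (FF1 R η y y1 r - ((m / r : ℝ) : ℂ) * FF R η y r)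

/-- its second derivative -/
noncomputable def ff2 (R η m k : ℝ) (w : ℝ → ℂ) (y y1 : ℝ → ℂ) (r : ℝ) : ℂ :=
  ((r ^ (-m) : ℝ) : ℂ) * (((k / r ^ 2 : ℝ) + w r) * FF R η y r
    - 2 * ((m / r : ℝ) : ℂ) * FF1 R η y y1 r + ((m * (m + 1) / r ^ 2 : ℝ) : ℂ) * FF R η y r)

theorem hasDerivAt_ff {R η m : ℝ} (hR : 0 < R) (hη : 0 < η) {Q y y1 : ℝ → ℂ} (hy : Sol Q y y1)
    {r : ℝ} (hr : 0 < r) : HasDerivAt (ff R η m y) (ff1 R η m y y1 r) r := by
  refine HasDerivAt.congr_deriv (f := ff R η m y) ((hasDerivAt_pw hr).mul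
    (hasDerivAt_FF hR hη hy hr)) ?_
  rw [ff1]
  ring

theorem hasDerivAt_ff1 {R η m k : ℝ} {w : ℝ → ℂ} (hR : 0 < R) (hη : 0 < η) {Q y y1 : ℝ → ℂ}
    (hy : Sol Q y y1) {r : ℝ} (hr : 0 < r)
    (h2 : HasDerivAt (FF1 R η y y1) (((k / r ^ 2 : ℝ) + w r) * FF R η y r) r) :
    HasDerivAt (ff1 R η m y y1) (ff2 R η m k w y y1 r) r := by
  have h3 : HasDerivAt (fun r : ℝ => ((m / r : ℝ) : ℂ)) ((-(m / r ^ 2) : ℝ) : ℂ) r := by
    apply HasDerivAt.ofReal_comp
    have h4 := (hasDerivAt_inv hr.ne').const_mul m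
    refine HasDerivAt.congr_deriv (f := fun r => m / r) ?_ (f' := m * -(r ^ 2)⁻¹) ?_
    · simpa [div_eq_mul_inv] using h4
    · ring
  refine HasDerivAt.congr_deriv (f := ff1 R η m y y1) ((hasDerivAt_pw hr).mul
    (h2.sub (h3.mul (hasDerivAt_FF hR hη hy hr)))) ?_
  rw [ff2]
  have : (r : ℂ) ≠ 0 := by exact_mod_cast hr.ne'
  push_cast
  field_simp
  ring

/-- change of variables -/
theorem intOn_of {R η : ℝ} (hR : 0 < R) (hη : 0 < η) (G : ℝ → ℝ) (H : ℝ → ℝ)
    (hGH : ∀ s, (R / Real.log 2 * (sgm (η * s) * η)) * G (rad R η s) = H s)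
    (hH : Integrable H) : IntegrableOn G (Ioi 0) := by
  have himg : rad R η '' univ = Ioi 0 := by
    ext r
    constructor
    · rintro ⟨s, -, rfl⟩
      exact rad_pos hR η s
    · intro hr
      exact ⟨sof R η r, mem_univ _, rad_sof hR hη hr⟩
  have hinj : InjOn (rad R η) univ := by
    intro s _ s' _ h
    rw [← sof_rad hR hη s, h, sof_rad hR hη s']
  rw [← himg, integrableOn_image_iff_integrableOn_abs_deriv_smul MeasurableSet.univ
    (fun s _ => (hasDerivAt_rad R η s).hasDerivWithinAt) hinj, integrableOn_univ]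
  refine hH.congr (ae_of_all _ fun s => ?_)
  have hpos : 0 < R / Real.log 2 * (sgm (η * s) * η) :=
    mul_pos (div_pos hR log2_pos) (mul_pos (sgm_pos _) hη)
  rw [← hGH s]
  simp only [smul_eq_mul, abs_of_pos hpos]

theorem continuous_tt (η : ℝ) : Continuous (tt η) :=
  continuous_iff_continuousAt.2 fun s => (hasDerivAt_tt η s).continuousAt

theorem continuous_rad (R η : ℝ) : Continuous (rad R η) :=
  continuous_iff_continuousAt.2 fun s => (hasDerivAt_rad R η s).continuousAt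

theorem pw_sq {m r : ℝ} (hr : 0 < r) (n : ℕ) (hn : (n : ℝ) = 2 * m) :
    (r ^ (-m)) ^ 2 * r ^ n = 1 := by
  rw [← Real.rpow_natCast r n, ← Real.rpow_natCast (r ^ (-m)) 2, ← Real.rpow_mul hr.le,
    ← Real.rpow_add hr, hn]
  have : -m * ((2 : ℕ) : ℝ) + 2 * m = 0 := by push_cast; ring
  rw [this, Real.rpow_zero]

theorem norm_ff_sq {R η m r : ℝ} (hr : 0 < r) {y : ℝ → ℂ} (n : ℕ) (hn : (n : ℝ) = 2 * m) :
    ‖ff R η m y r‖ ^ 2 * r ^ n = ‖FF R η y r‖ ^ 2 := by
  have h1 : 0 < r ^ (-m) := Real.rpow_pos_of_pos hr _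
  rw [ff, norm_mul, Complex.norm_real, Real.norm_eq_abs, abs_of_pos h1]
  have := pw_sq hr n hn
  calc (r ^ (-m) * ‖FF R η y r‖) ^ 2 * r ^ n
      = ((r ^ (-m)) ^ 2 * r ^ n) * ‖FF R η y r‖ ^ 2 := by ring
    _ = _ := by rw [this, one_mul]

theorem norm_ff1_sq {R η m r : ℝ} (hr : 0 < r) {y y1 : ℝ → ℂ} (n : ℕ) (hn : (n : ℝ) = 2 * m) :
    ‖ff1 R η m y y1 r‖ ^ 2 * r ^ n =
      ‖FF1 R η y y1 r - ((m / r : ℝ) : ℂ) * FF R η y r‖ ^ 2 := by
  have h1 : 0 < r ^ (-m) := Real.rpow_pos_of_pos hr _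
  rw [ff1, norm_mul, Complex.norm_real, Real.norm_eq_abs, abs_of_pos h1]
  have := pw_sq hr n hn
  calc (r ^ (-m) * ‖FF1 R η y y1 r - ((m / r : ℝ) : ℂ) * FF R η y r‖) ^ 2 * r ^ n
      = ((r ^ (-m)) ^ 2 * r ^ n) *
          ‖FF1 R η y y1 r - ((m / r : ℝ) : ℂ) * FF R η y r‖ ^ 2 := by ring
    _ = _ := by rw [this, one_mul]

theorem sol_int {Q y y1 : ℝ → ℂ} (hy : Sol Q y y1) :
    Integrable (fun s => ‖y s‖ ^ 2) ∧ Integrable (fun s => ‖y1 s‖ ^ 2) :=
  ⟨(memLp_two_iff_integrable_sq_norm hy.2.2.1.1).1 hy.2.2.1,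
    (memLp_two_iff_integrable_sq_norm hy.2.2.2.1.1).1 hy.2.2.2.1⟩

theorem intOn_ff {R η m : ℝ} (hR : 0 < R) (hη : 0 < η) {Q y y1 : ℝ → ℂ} (hy : Sol Q y y1)
    (n : ℕ) (hn : (n : ℝ) = 2 * m) :
    IntegrableOn (fun r : ℝ => ‖ff R η m y r‖ ^ 2 * r ^ n) (Ioi 0) := by
  refine intOn_of hR hη _ (fun s => (R / Real.log 2 * (sgm (η * s) * η)) *
    ‖(tt η s : ℂ) * y s‖ ^ 2) (fun s => ?_) ?_
  · rw [norm_ff_sq (rad_pos hR η s) n hn, FF, sof_rad hR hη]
  · refine ((sol_int hy).1.const_mul (R / Real.log 2 * η)).mono' ?_ (ae_of_all _ fun s => ?_)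
    · apply Continuous.aestronglyMeasurable
      refine Continuous.mul ?_ ?_
      · exact continuous_const.mul ((continuous_sgm.comp (continuous_const.mul continuous_id)).mul
          continuous_const)
      · exact ((Complex.continuous_ofReal.comp (continuous_tt η)).mul (sol_cont hy)).norm.pow 2
    · have hs := sgm_pos (η * s)
      have hs1 := sgm_lt_one (η * s)
      have ht := tt_pos η s
      have htsq : tt η s ^ 2 < 1 := by rw [tt_sq]; exact sgm_lt_one _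
      have hc : 0 < R / Real.log 2 := div_pos hR log2_pos
      rw [Real.norm_eq_abs, abs_of_nonneg (by positivity), norm_mul, Complex.norm_real,
        Real.norm_eq_abs, abs_of_pos ht, mul_pow]
      have e1 : R / Real.log 2 * (sgm (η * s) * η) ≤ R / Real.log 2 * η := by
        apply mul_le_mul_of_nonneg_left _ hc.le
        nlinarith
      have e2 : tt η s ^ 2 * ‖y s‖ ^ 2 ≤ ‖y s‖ ^ 2 := by
        have : 0 ≤ ‖y s‖ ^ 2 := by positivity
        nlinarith
      exact mul_le_mul e1 e2 (by positivity) (by positivity)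

theorem intOn_ff1 {R η m : ℝ} (hR : 0 < R) (hη : 0 < η) {Q y y1 : ℝ → ℂ} (hy : Sol Q y y1)
    (n : ℕ) (hn : (n : ℝ) = 2 * m) :
    IntegrableOn (fun r : ℝ => ‖ff1 R η m y y1 r‖ ^ 2 * r ^ n) (Ioi 0) := by
  refine intOn_of hR hη _ (fun s => (R / Real.log 2 * (sgm (η * s) * η)) *
    ‖((1 / (R * η / Real.log 2 * tt η s) : ℝ) : ℂ) *
    (((η * (1 - tt η s ^ 2) / 2 : ℝ) : ℂ) * y s + y1 s) -
      ((m / rad R η s : ℝ) : ℂ) * ((tt η s : ℂ) * y s)‖ ^ 2) (fun s => ?_) ?_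
  · rw [norm_ff1_sq (rad_pos hR η s) n hn, FF1, FF, sof_rad hR hη]
  · set c : ℝ := R * η / Real.log 2 with hc
    have hcpos : 0 < c := div_pos (mul_pos hR hη) log2_pos
    have hRl : 0 < Real.log 2 / R := div_pos log2_pos hR
    refine (((sol_int hy).1.const_mul (3 * (1 / c * (η / 2) ^ 2 + c * (m * (Real.log 2 / R)) ^ 2))).add
      ((sol_int hy).2.const_mul (3 * (1 / c)))).mono' ?_ (ae_of_all _ fun s => ?_)
    · apply Continuous.aestronglyMeasurable
      refine Continuous.mul ?_ ?_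
      · exact continuous_const.mul ((continuous_sgm.comp (continuous_const.mul continuous_id)).mul
          continuous_const)
      · apply Continuous.pow
        apply Continuous.norm
        refine Continuous.sub (Continuous.mul ?_ ?_) (Continuous.mul ?_ ?_)
        · apply Complex.continuous_ofReal.comp
          exact continuous_const.div (continuous_const.mul (continuous_tt η))
            fun s => (mul_pos hcpos (tt_pos η s)).ne'
        · refine Continuous.add (Continuous.mul ?_ (sol_cont hy)) (sol_cont1 hy)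
          apply Complex.continuous_ofReal.comp
          exact (continuous_const.mul (continuous_const.sub ((continuous_tt η).pow 2))).div_const _
        · apply Complex.continuous_ofReal.comp
          exact continuous_const.div (continuous_rad R η) fun s => (rad_pos hR η s).ne'
        · exact (Complex.continuous_ofReal.comp (continuous_tt η)).mul (sol_cont hy)
    · have ht := tt_pos η s
      have htsq : tt η s ^ 2 < 1 := by rw [tt_sq]; exact sgm_lt_one _
      have hrho : R / Real.log 2 * (sgm (η * s) * η) = c * tt η s ^ 2 := by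
        rw [tt_sq, hc]; ring
      have hradb : tt η s ^ 2 / rad R η s ≤ Real.log 2 / R := by
        rw [tt_sq, rad]
        have h1 := sgm_le_spl (η * s)
        have h2 := spl_pos (η * s)
        have h3 := log2_pos
        rw [div_le_div_iff₀ (by positivity) hR]
        have e : Real.log 2 * (R / Real.log 2 * spl (η * s)) = R * spl (η * s) := by
          field_simp
        rw [e]
        nlinarith
      have hradp := rad_pos hR η s
      rw [hrho, Real.norm_eq_abs, abs_of_nonneg (by positivity)]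
      generalize rad R η s = ρ at *
      generalize tt η s = t at *
      simp only [Pi.add_apply]
      -- the three terms
      set P : ℂ := ((1 / (c * t) : ℝ) : ℂ) * (((η * (1 - t ^ 2) / 2 : ℝ) : ℂ) * y s) with hP
      set P1 : ℂ := ((1 / (c * t) : ℝ) : ℂ) * y1 s with hP1
      set P2 : ℂ := ((m / ρ : ℝ) : ℂ) * ((t : ℂ) * y s) with hP2
      have hsum : ((1 / (c * t) : ℝ) : ℂ) * (((η * (1 - t ^ 2) / 2 : ℝ) : ℂ) * y s + y1 s) -
          ((m / ρ : ℝ) : ℂ) * ((t : ℂ) * y s) = P + P1 - P2 := by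
        rw [hP, hP1, hP2]; ring
      rw [hsum]
      have hn3 : ‖P + P1 - P2‖ ^ 2 ≤ 3 * (‖P‖ ^ 2 + ‖P1‖ ^ 2 + ‖P2‖ ^ 2) := by
        have h1 : ‖P + P1 - P2‖ ≤ ‖P‖ + ‖P1‖ + ‖P2‖ :=
          (norm_sub_le _ _).trans (by linarith [norm_add_le P P1])
        have h2 := pow_le_pow_left₀ (norm_nonneg _) h1 2
        nlinarith [sq_nonneg (‖P‖ - ‖P1‖), sq_nonneg (‖P‖ - ‖P2‖), sq_nonneg (‖P1‖ - ‖P2‖)]
      have b1 : c * t ^ 2 * ‖P‖ ^ 2 ≤ 1 / c * (η / 2) ^ 2 * ‖y s‖ ^ 2 := by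
        rw [hP, norm_mul, norm_mul, Complex.norm_real, Complex.norm_real, Real.norm_eq_abs,
          Real.norm_eq_abs, mul_pow, mul_pow, sq_abs, sq_abs]
        have e1 : c * t ^ 2 * ((1 / (c * t)) ^ 2 * ((η * (1 - t ^ 2) / 2) ^ 2 * ‖y s‖ ^ 2)) =
            1 / c * ((η / 2) ^ 2 * (1 - t ^ 2) ^ 2 * ‖y s‖ ^ 2) := by
          field_simp
        rw [e1]
        have e2 : (1 - t ^ 2) ^ 2 ≤ 1 := by
          have : 0 ≤ 1 - t ^ 2 := by linarith
          have h3 : 0 < t ^ 2 := by positivity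
          nlinarith
        have e3 : (η / 2) ^ 2 * (1 - t ^ 2) ^ 2 * ‖y s‖ ^ 2 ≤ (η / 2) ^ 2 * ‖y s‖ ^ 2 := by
          have h4 : 0 ≤ (η / 2) ^ 2 * ‖y s‖ ^ 2 := by positivity
          nlinarith
        have := mul_le_mul_of_nonneg_left e3 (by positivity : 0 ≤ 1 / c)
        linarith
      have b2 : c * t ^ 2 * ‖P1‖ ^ 2 = 1 / c * ‖y1 s‖ ^ 2 := by
        rw [hP1, norm_mul, Complex.norm_real, Real.norm_eq_abs, mul_pow, sq_abs]
        field_simp
      have b3 : c * t ^ 2 * ‖P2‖ ^ 2 ≤ c * (m * (Real.log 2 / R)) ^ 2 * ‖y s‖ ^ 2 := by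
        rw [hP2, norm_mul, norm_mul, Complex.norm_real, Complex.norm_real, Real.norm_eq_abs,
          Real.norm_eq_abs, mul_pow, mul_pow, sq_abs, sq_abs]
        have e1 : c * t ^ 2 * ((m / ρ) ^ 2 * (t ^ 2 * ‖y s‖ ^ 2)) =
            c * m ^ 2 * ‖y s‖ ^ 2 * (t ^ 2 / ρ) ^ 2 := by
          field_simp
        rw [e1]
        have e2 : (t ^ 2 / ρ) ^ 2 ≤ (Real.log 2 / R) ^ 2 :=
          pow_le_pow_left₀ (by positivity) hradb 2
        have := mul_le_mul_of_nonneg_left e2 (by positivity : 0 ≤ c * m ^ 2 * ‖y s‖ ^ 2)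
        calc c * m ^ 2 * ‖y s‖ ^ 2 * (t ^ 2 / ρ) ^ 2 ≤
            c * m ^ 2 * ‖y s‖ ^ 2 * (Real.log 2 / R) ^ 2 := this
          _ = _ := by ring
      have := mul_le_mul_of_nonneg_left hn3 (by positivity : 0 ≤ c * t ^ 2)
      nlinarith

/-- **Brick TRANS.** -/
theorem t_trans : St_trans := by
  intro d ℓ R η A h v e y y1 hd hℓ hR hη hA hh hrel hy hb
  have hdR : (2 : ℝ) ≤ d := by exact_mod_cast hd
  have hℓR : (5 : ℝ) + d ≤ ℓ := by exact_mod_cast hℓ
  have hν : 0 ≤ nu d ℓ := by unfold nu; linarith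
  set m : ℝ := nu d ℓ + 1 / 2 with hm
  have hmpos : 0 < m := by linarith
  set w : ℝ → ℂ := fun r => (v r - A * e) / ((h ^ 2 : ℝ) : ℂ) with hw
  have hhc : ((h ^ 2 : ℝ) : ℂ) ≠ 0 := by
    have : (h ^ 2 : ℝ) ≠ 0 := by positivity
    exact_mod_cast this
  have hn : ((2 * ℓ + d - 1 : ℕ) : ℝ) = 2 * m := by
    rw [Nat.cast_sub (by omega), hm, nu]
    push_cast
    ring
  refine ⟨ff R η m y, ff1 R η m y y1, ff2 R η m ((nu d ℓ) ^ 2 - 1 / 4) w y y1,
    ⟨fun r hr => hasDerivAt_ff hR hη hy hr, fun r hr => hasDerivAt_ff1 hR hη hy hr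
      (hasDerivAt_FF1 hR hη hA hh hrel hy hr), fun r hr => ?_, ?_, intOn_ff hR hη hy _ hn,
      intOn_ff1 hR hη hy _ hn⟩, ?_⟩
  · -- the radial equation
    have hrc : (r : ℂ) ≠ 0 := by exact_mod_cast hr.ne'
    have hν' : nu d ℓ = m - 1 / 2 := by rw [hm]; ring
    have h2m : (d : ℝ) - 1 + 2 * ℓ = 2 * m := by rw [hm, nu]; ring
    rw [h2m, ff2, ff1, ff, hν', hw]
    have hh0 : (h : ℂ) ≠ 0 := by exact_mod_cast hh.ne'
    push_cast
    field_simp
    ring
  · -- bounds near the origin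
    obtain ⟨K, hK, hK1⟩ := near_zero hR hη hν (sol_cont hy) (sol_cont1 hy) hb
    refine ⟨(1 + m) * K, fun r hr hr1 => ?_⟩
    obtain ⟨h1, h2⟩ := hK1 r hr hr1
    have hpw : 0 < r ^ (-m) := Real.rpow_pos_of_pos hr _
    have hE : (3 : ℝ) ≤ -m + (2 / 3 * nu d ℓ + 1 / 2) + ℓ := by
      rw [hm, nu]; linarith
    have hrℓ : (r : ℝ) ^ ℓ = r ^ (ℓ : ℝ) := (Real.rpow_natCast r ℓ).symm
    have hr3 : (r : ℝ) ^ 3 = r ^ (3 : ℝ) := by
      rw [← Real.rpow_natCast r 3]; norm_num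
    have hr2 : (r : ℝ) ^ 2 = r ^ (2 : ℝ) := by
      rw [← Real.rpow_natCast r 2]; norm_num
    constructor
    · rw [ff, norm_mul, Complex.norm_real, Real.norm_eq_abs, abs_of_pos hpw]
      have e1 : r ^ (-m) * r ^ (2 / 3 * nu d ℓ + 1 / 2) * r ^ ℓ ≤ r ^ 3 := by
        rw [hrℓ, hr3, ← Real.rpow_add hr, ← Real.rpow_add hr]
        exact Real.rpow_le_rpow_of_exponent_ge hr hr1 hE
      have e2 : 0 ≤ r ^ ℓ := by positivity
      calc r ^ (-m) * ‖FF R η y r‖ * r ^ ℓ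
          ≤ r ^ (-m) * (K * r ^ (2 / 3 * nu d ℓ + 1 / 2)) * r ^ ℓ :=
            mul_le_mul_of_nonneg_right (mul_le_mul_of_nonneg_left h1 hpw.le) e2
        _ = K * (r ^ (-m) * r ^ (2 / 3 * nu d ℓ + 1 / 2) * r ^ ℓ) := by ring
        _ ≤ K * r ^ 3 := mul_le_mul_of_nonneg_left e1 hK
        _ ≤ (1 + m) * K * r ^ 3 := by
            have : 0 ≤ m * (K * r ^ 3) := by positivity
            linarith
    · rw [ff1, norm_mul, Complex.norm_real, Real.norm_eq_abs, abs_of_pos hpw]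
      have e1 : r ^ (-m) * r ^ (2 / 3 * nu d ℓ - 1 / 2) * r ^ ℓ ≤ r ^ 2 := by
        rw [hrℓ, hr2, ← Real.rpow_add hr, ← Real.rpow_add hr]
        exact Real.rpow_le_rpow_of_exponent_ge hr hr1 (by linarith)
      have e2 : 0 ≤ r ^ ℓ := by positivity
      have e3 : ‖FF1 R η y y1 r - ((m / r : ℝ) : ℂ) * FF R η y r‖ ≤
          (1 + m) * (K * r ^ (2 / 3 * nu d ℓ - 1 / 2)) := by
        refine (norm_sub_le _ _).trans ?_
        rw [norm_mul, Complex.norm_real, Real.norm_eq_abs, abs_of_pos (div_pos hmpos hr)]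
        have e4 : r ^ (2 / 3 * nu d ℓ + 1 / 2) = r * r ^ (2 / 3 * nu d ℓ - 1 / 2) := by
          rw [← Real.rpow_one_add' hr.le (by rw [nu]; linarith)]
          congr 1
          ring
        have e5 : m / r * ‖FF R η y r‖ ≤ m * (K * r ^ (2 / 3 * nu d ℓ - 1 / 2)) := by
          calc m / r * ‖FF R η y r‖ ≤ m / r * (K * r ^ (2 / 3 * nu d ℓ + 1 / 2)) :=
                mul_le_mul_of_nonneg_left h1 (by positivity)
            _ = _ := by rw [e4]; field_simp
        linarith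
      calc r ^ (-m) * ‖FF1 R η y y1 r - ((m / r : ℝ) : ℂ) * FF R η y r‖ * r ^ ℓ
          ≤ r ^ (-m) * ((1 + m) * (K * r ^ (2 / 3 * nu d ℓ - 1 / 2))) * r ^ ℓ :=
            mul_le_mul_of_nonneg_right (mul_le_mul_of_nonneg_left e3 hpw.le) e2
        _ = (1 + m) * K * (r ^ (-m) * r ^ (2 / 3 * nu d ℓ - 1 / 2) * r ^ ℓ) := by ring
        _ ≤ (1 + m) * K * r ^ 2 := mul_le_mul_of_nonneg_left e1 (by positivity)
  · obtain ⟨s, hs⟩ := hy.2.2.2.2
    refine ⟨rad R η s, rad_pos hR η s, ?_⟩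
    rw [ff, FF, sof_rad hR hη]
    have h1 : 0 < (rad R η s) ^ (-m) := Real.rpow_pos_of_pos (rad_pos hR η s) _
    have h2 := tt_pos η s
    refine mul_ne_zero ?_ (mul_ne_zero ?_ hs)
    · exact_mod_cast h1.ne'
    · exact_mod_cast h2.ne'

end Pool.Agent.K3h22.LT
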